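import Mathlib

set_option autoImplicit false

open Set Metric Complex Filter Topology
open scoped ComplexConjugate

namespace Pool.Agent.Loc226

/-- the signed (doubled) area of the triangle `a b c` -/
noncomputable def cr (a b c : ℂ) : ℝ := (b.re - a.re) * (c.im - a.im) - (b.im - a.im) * (c.re - a.re)

theorem cr_continuous (a b : ℂ) : Continuous (cr a b) := by
  unfold cr
  fun_prop

theorem conj_eq_inv_of_norm_one {a : ℂ} (ha : ‖a‖ = 1) : conj a = a⁻¹ := by
  rw [Complex.inv_def, Complex.normSq_eq_norm_sq, ha]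
  simp

theorem cr_eq {a b c : ℂ} (ha : ‖a‖ = 1) (hb : ‖b‖ = 1) (hc : ‖c‖ = 1) :
    ((cr a b c : ℝ) : ℂ) = (a - b) * (c - a) * (c - b) / (2 * I * a * b * c) := by
  have ha0 : a ≠ 0 := by rintro rfl; simp at ha
  have hb0 : b ≠ 0 := by rintro rfl; simp at hb
  have hc0 : c ≠ 0 := by rintro rfl; simp at hc
  have h1 : (2 * I) * ((cr a b c : ℝ) : ℂ) = conj (b - a) * (c - a) - (b - a) * conj (c - a) := by
    apply Complex.ext
    · simp [cr]
      ring
    · simp [cr]
      ring
  have h2 : conj (b - a) * (c - a) - (b - a) * conj (c - a) =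
      (a - b) * (c - a) * (c - b) / (a * b * c) := by
    simp only [map_sub, conj_eq_inv_of_norm_one ha, conj_eq_inv_of_norm_one hb,
      conj_eq_inv_of_norm_one hc]
    field_simp
    ring
  have h3 : ((cr a b c : ℝ) : ℂ) = ((2 * I) * ((cr a b c : ℝ) : ℂ)) / (2 * I) := by
    field_simp
  rw [h3, h1, h2]
  field_simp

theorem normsq_sub {a b : ℂ} (ha : ‖a‖ = 1) (hb : ‖b‖ = 1) :
    ((‖a - b‖ ^ 2 : ℝ) : ℂ) = - (a - b) ^ 2 / (a * b) := by
  have ha0 : a ≠ 0 := by rintro rfl; simp at ha
  have hb0 : b ≠ 0 := by rintro rfl; simp at hb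
  rw [← Complex.normSq_eq_norm_sq, ← Complex.mul_conj]
  simp only [map_sub, conj_eq_inv_of_norm_one ha, conj_eq_inv_of_norm_one hb]
  field_simp
  ring

theorem cr_prod {a b c d : ℂ} (ha : ‖a‖ = 1) (hb : ‖b‖ = 1) (hc : ‖c‖ = 1) (hd : ‖d‖ = 1) :
    cr a b c * cr a b d * ‖c - d‖ ^ 2 = cr c d a * cr c d b * ‖a - b‖ ^ 2 := by
  have ha0 : a ≠ 0 := by rintro rfl; simp at ha
  have hb0 : b ≠ 0 := by rintro rfl; simp at hb
  have hc0 : c ≠ 0 := by rintro rfl; simp at hc
  have hd0 : d ≠ 0 := by rintro rfl; simp at hd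
  have h : ((cr a b c * cr a b d * ‖c - d‖ ^ 2 : ℝ) : ℂ) =
      ((cr c d a * cr c d b * ‖a - b‖ ^ 2 : ℝ) : ℂ) := by
    rw [ofReal_mul, ofReal_mul, ofReal_mul, ofReal_mul, normsq_sub hc hd, normsq_sub ha hb,
      cr_eq ha hb hc, cr_eq ha hb hd, cr_eq hc hd ha, cr_eq hc hd hb]
    field_simp
    ring
  exact_mod_cast h

/-- crossing chords -/
theorem cr_cross {a b c d : ℂ} (ha : ‖a‖ = 1) (hb : ‖b‖ = 1) (hc : ‖c‖ = 1) (hd : ‖d‖ = 1)
    (h : cr c d a * cr c d b < 0) : cr a b c * cr a b d < 0 := by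
  have h1 := cr_prod ha hb hc hd
  have hab : a ≠ b := by
    rintro rfl
    nlinarith [mul_self_nonneg (cr c d a)]
  have hpos : 0 < ‖a - b‖ ^ 2 := by
    have : 0 < ‖a - b‖ := norm_pos_iff.2 (sub_ne_zero.2 hab)
    positivity
  have h2 : cr c d a * cr c d b * ‖a - b‖ ^ 2 < 0 := mul_neg_of_neg_of_pos h hpos
  rw [← h1] at h2
  by_contra hcon
  push Not at hcon
  have : 0 ≤ cr a b c * cr a b d * ‖c - d‖ ^ 2 := mul_nonneg hcon (by positivity)
  linarith

theorem mem_segment_of_cr {a b s : ℂ} (ha : ‖a‖ = 1) (hb : ‖b‖ = 1) (hab : a ≠ b) (hs : ‖s‖ ≤ 1)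
    (h : cr a b s = 0) : s ∈ segment ℝ a b := by
  have hD : 0 < (b.re - a.re) ^ 2 + (b.im - a.im) ^ 2 := by
    by_contra hcon
    push Not at hcon
    have h1 : b.re - a.re = 0 := by nlinarith [sq_nonneg (b.re - a.re), sq_nonneg (b.im - a.im)]
    have h2 : b.im - a.im = 0 := by nlinarith [sq_nonneg (b.re - a.re), sq_nonneg (b.im - a.im)]
    exact hab (Complex.ext (by linarith) (by linarith))
  set D := (b.re - a.re) ^ 2 + (b.im - a.im) ^ 2 with hDdef
  set t := ((s.re - a.re) * (b.re - a.re) + (s.im - a.im) * (b.im - a.im)) / D with ht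
  have htD : t * D = (s.re - a.re) * (b.re - a.re) + (s.im - a.im) * (b.im - a.im) := by
    rw [ht]; field_simp
  unfold cr at h
  have hre : s.re = a.re + t * (b.re - a.re) := by
    have : (s.re - a.re - t * (b.re - a.re)) * D = 0 := by
      have e : (s.re - a.re - t * (b.re - a.re)) * D = (s.re - a.re) * D - (t * D) * (b.re - a.re) := by ring
      rw [e, htD, hDdef]
      linear_combination (-(b.im - a.im)) * h
    rcases mul_eq_zero.1 this with h1 | h1
    · linarith
    · exact absurd h1 hD.ne'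
  have him : s.im = a.im + t * (b.im - a.im) := by
    have : (s.im - a.im - t * (b.im - a.im)) * D = 0 := by
      have e : (s.im - a.im - t * (b.im - a.im)) * D = (s.im - a.im) * D - (t * D) * (b.im - a.im) := by ring
      rw [e, htD, hDdef]
      linear_combination ((b.re - a.re)) * h
    rcases mul_eq_zero.1 this with h1 | h1
    · linarith
    · exact absurd h1 hD.ne'
  have na : a.re ^ 2 + a.im ^ 2 = 1 := by
    have := Complex.sq_norm a
    rw [ha, Complex.normSq_apply] at this
    nlinarith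
  have nb : b.re ^ 2 + b.im ^ 2 = 1 := by
    have := Complex.sq_norm b
    rw [hb, Complex.normSq_apply] at this
    nlinarith
  have ns : s.re ^ 2 + s.im ^ 2 ≤ 1 := by
    have h1 := Complex.sq_norm s
    rw [Complex.normSq_apply] at h1
    have h2 : ‖s‖ ^ 2 ≤ 1 := by
      have := norm_nonneg s
      nlinarith
    nlinarith
  have htt : 0 ≤ t * (1 - t) := by
    have e : t * (1 - t) * D = 1 - (s.re ^ 2 + s.im ^ 2) := by
      rw [hre, him, hDdef]
      linear_combination (-(t - 1) ) * na + (t) * nb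
    by_contra hcon
    push Not at hcon
    have : t * (1 - t) * D < 0 := mul_neg_of_neg_of_pos hcon hD
    linarith
  have ht0 : 0 ≤ t := by
    by_contra hcon
    push Not at hcon
    nlinarith
  have ht1 : t ≤ 1 := by
    by_contra hcon
    push Not at hcon
    nlinarith
  refine ⟨1 - t, t, by linarith, ht0, by ring, ?_⟩
  apply Complex.ext
  · simp
    linarith
  · simp
    linarith

/-- a connected subset of the closed unit disc with points on both sides of a chord meets it -/
theorem exists_mem_segment {S : Set ℂ} (hS : IsPreconnected S) (hSb : ∀ s ∈ S, ‖s‖ ≤ 1) {a b : ℂ}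
    (ha : ‖a‖ = 1) (hb : ‖b‖ = 1) {s t : ℂ} (hs : s ∈ S) (ht : t ∈ S)
    (h : cr a b s * cr a b t < 0) : ∃ x ∈ S, x ∈ segment ℝ a b := by
  have hab : a ≠ b := by
    rintro rfl
    simp [cr] at h
  have hc : ContinuousOn (cr a b) S := (cr_continuous a b).continuousOn
  have : (0:ℝ) ∈ cr a b '' S := by
    rcases lt_trichotomy (cr a b s) 0 with h1 | h1 | h1
    · have h2 : 0 < cr a b t := by
        by_contra hcon
        push Not at hcon
        nlinarith
      exact hS.intermediate_value hs ht hc ⟨h1.le, h2.le⟩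
    · rw [h1] at h
      simp at h
    · have h2 : cr a b t < 0 := by
        by_contra hcon
        push Not at hcon
        nlinarith
      exact hS.intermediate_value ht hs hc ⟨h2.le, h1.le⟩
  obtain ⟨x, hx, hx0⟩ := this
  exact ⟨x, hx, mem_segment_of_cr ha hb hab (hSb x hx) hx0⟩

end Pool.Agent.Loc226
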