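import Mathlib
import Pool.Agent.Work.MP_c9b226_loc.F

set_option autoImplicit false

open Set Metric Complex Filter Topology
open scoped ComplexConjugate

namespace Pool.Agent.Loc226

theorem norm_sq_re_im {a : ℂ} (ha : ‖a‖ = 1) : a.re ^ 2 + a.im ^ 2 = 1 := by
  have := Complex.sq_norm a
  rw [ha, Complex.normSq_apply] at this
  nlinarith

theorem norm_eq_one_of_sq {a : ℂ} (ha : a.re ^ 2 + a.im ^ 2 = 1) : ‖a‖ = 1 := by
  have h := Complex.sq_norm a
  rw [Complex.normSq_apply] at h
  have h2 : ‖a‖ ^ 2 = 1 := by nlinarith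
  have h3 := norm_nonneg a
  nlinarith

/-- both open arcs between two different points of the unit circle are not empty -/
theorem arc_exists {c d : ℂ} (hc : ‖c‖ = 1) (hd : ‖d‖ = 1) (hcd : c ≠ d) :
    (∃ a : ℂ, ‖a‖ = 1 ∧ 0 < cr c d a) ∧ ∃ a : ℂ, ‖a‖ = 1 ∧ cr c d a < 0 := by
  have hc1 := norm_sq_re_im hc
  have hd1 := norm_sq_re_im hd
  set ux := d.re - c.re with hux
  set uy := d.im - c.im with huy
  have hD : 0 < ux ^ 2 + uy ^ 2 := by
    by_contra hcon
    push Not at hcon
    have h1 : ux = 0 := by nlinarith [sq_nonneg ux, sq_nonneg uy]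
    have h2 : uy = 0 := by nlinarith [sq_nonneg ux, sq_nonneg uy]
    exact hcd (Complex.ext (by linarith) (by linarith))
  set n := Real.sqrt (ux ^ 2 + uy ^ 2) with hn
  have hn0 : 0 < n := Real.sqrt_pos.2 hD
  have hn2 : n ^ 2 = ux ^ 2 + uy ^ 2 := Real.sq_sqrt hD.le
  set w := ux * c.im - uy * c.re with hw
  have hdot : ux * c.re + uy * c.im = - n ^ 2 / 2 := by
    have e1 : d.re = c.re + ux := by rw [hux]; ring
    have e2 : d.im = c.im + uy := by rw [huy]; ring
    rw [e1, e2] at hd1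
    nlinarith
  have hw2 : w ^ 2 < n ^ 2 := by
    have e : w ^ 2 + (ux * c.re + uy * c.im) ^ 2 = n ^ 2 := by
      rw [hn2, hw]
      linear_combination (ux ^ 2 + uy ^ 2) * hc1
    rw [hdot] at e
    have : 0 < (-n ^ 2 / 2) ^ 2 := by
      have : 0 < n ^ 2 := by positivity
      nlinarith
    linarith
  have hwn : |w| < n := abs_lt_of_sq_lt_sq hw2 hn0.le
  rw [abs_lt] at hwn
  constructor
  · refine ⟨⟨-uy / n, ux / n⟩, ?_, ?_⟩
    · apply norm_eq_one_of_sq
      simp only
      field_simp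
      nlinarith
    · have : cr c d ⟨-uy / n, ux / n⟩ = n - w := by
        unfold cr
        simp only [← hux, ← huy]
        rw [hw]
        field_simp
        nlinarith
      rw [this]
      linarith
  · refine ⟨⟨uy / n, -ux / n⟩, ?_, ?_⟩
    · apply norm_eq_one_of_sq
      simp only
      field_simp
      nlinarith
    · have : cr c d ⟨uy / n, -ux / n⟩ = - n - w := by
        unfold cr
        simp only [← hux, ← huy]
        rw [hw]
        field_simp
        nlinarith
      rw [this]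
      linarith

/-- the points of norm one of a chord are its ends -/
theorem eq_end_of_mem_segment {a b x : ℂ} (ha : ‖a‖ = 1) (hb : ‖b‖ = 1) (hx : ‖x‖ = 1)
    (h : x ∈ segment ℝ a b) : x = a ∨ x = b := by
  by_cases hab : a = b
  · subst hab
    simp only [segment_same, mem_singleton_iff] at h
    exact Or.inl h
  obtain ⟨s, t, hs, ht, hst, rfl⟩ := h
  rcases hs.eq_or_lt with h1 | h1
  · right
    have : t = 1 := by linarith
    rw [← h1, this]
    simp
  rcases ht.eq_or_lt with h2 | h2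
  · left
    have : s = 1 := by linarith
    rw [← h2, this]
    simp
  exfalso
  have := norm_combo_lt_of_ne ha.le hb.le hab h1 h2 hst
  linarith

/-- a subset of the unit circle containing no arc is totally disconnected -/
theorem totallyDisconnected_of_no_arc {S : Set ℂ} (hS : ∀ z ∈ S, ‖z‖ = 1)
    (h : ∀ u : ℂ, ‖u‖ = 1 → ∀ δ > 0, ∃ v : ℂ, ‖v‖ = 1 ∧ ‖v - u‖ < δ ∧ v ∉ S) :
    IsTotallyDisconnected S := by
  intro t htS ht x hx y hy
  by_contra hxy
  have hx1 := hS x (htS hx)
  have hy1 := hS y (htS hy)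
  obtain ⟨⟨a, ha, ha0⟩, ⟨b, hb, hb0⟩⟩ := arc_exists hx1 hy1 hxy
  -- perturb `a`, `b` off `S`
  have hA : ∃ a' : ℂ, ‖a'‖ = 1 ∧ 0 < cr x y a' ∧ a' ∉ S := by
    have hopen : IsOpen {z | 0 < cr x y z} := isOpen_lt continuous_const (cr_continuous x y)
    obtain ⟨δ, hδ, hδs⟩ := Metric.isOpen_iff.1 hopen a ha0
    obtain ⟨v, hv1, hv2, hv3⟩ := h a ha δ hδ
    exact ⟨v, hv1, hδs (by rwa [mem_ball, dist_eq_norm]), hv3⟩
  have hB : ∃ b' : ℂ, ‖b'‖ = 1 ∧ cr x y b' < 0 ∧ b' ∉ S := by
    have hopen : IsOpen {z | cr x y z < 0} := isOpen_lt (cr_continuous x y) continuous_const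
    obtain ⟨δ, hδ, hδs⟩ := Metric.isOpen_iff.1 hopen b hb0
    obtain ⟨v, hv1, hv2, hv3⟩ := h b hb δ hδ
    exact ⟨v, hv1, hδs (by rwa [mem_ball, dist_eq_norm]), hv3⟩
  obtain ⟨a', ha', ha'0, ha'S⟩ := hA
  obtain ⟨b', hb', hb'0, hb'S⟩ := hB
  have hc := cr_cross ha' hb' hx1 hy1 (mul_neg_of_pos_of_neg ha'0 hb'0)
  obtain ⟨z, hz, hzs⟩ := exists_mem_segment ht (fun s hs => (hS s (htS hs)).le) ha' hb' hx hy hc
  rcases eq_end_of_mem_segment ha' hb' (hS z (htS hz)) hzs with h1 | h1
  · exact ha'S (h1 ▸ htS hz)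
  · exact hb'S (h1 ▸ htS hz)

/-- the rotations by the `n`-th roots of unity move every point of the circle near a given point -/
theorem rot_cover {δ : ℝ} (hδ : 0 < δ) : ∃ n : ℕ, ∀ z u : ℂ, ‖z‖ = 1 → ‖u‖ = 1 →
    ∃ k < n, ‖exp (I * ((2 * Real.pi * k / n : ℝ) : ℂ)) * z - u‖ < δ := by
  obtain ⟨n, hn⟩ := exists_nat_gt (2 * Real.pi / δ)
  have hpi := Real.pi_pos
  have hn0 : (0:ℝ) < n := lt_of_le_of_lt (by positivity) hn
  refine ⟨n, fun z u hz hu => ?_⟩
  have hz0 : z ≠ 0 := by rintro rfl; simp at hz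
  -- an argument in `[0, 2π)`
  obtain ⟨β, hβ0, hβ1, hβ⟩ : ∃ β : ℝ, 0 ≤ β ∧ β < 2 * Real.pi ∧ exp (I * β) = u / z := by
    have hnorm : ‖u / z‖ = 1 := by rw [norm_div, hz, hu, div_one]
    have harg : exp (I * ((arg (u / z) : ℝ) : ℂ)) = u / z := by
      have := Complex.norm_mul_exp_arg_mul_I (u / z)
      rw [hnorm] at this
      rw [mul_comm]
      simpa using this
    by_cases h : 0 ≤ arg (u / z)
    · exact ⟨arg (u / z), h, by linarith [Complex.arg_le_pi (u / z)], harg⟩
    · push Not at h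
      refine ⟨arg (u / z) + 2 * Real.pi, by linarith [Complex.neg_pi_lt_arg (u / z)], by linarith, ?_⟩
      push_cast
      rw [mul_add, Complex.exp_add]
      have : I * (2 * (Real.pi : ℂ)) = 2 * Real.pi * I := by ring
      rw [this, Complex.exp_two_pi_mul_I, mul_one]
      exact harg
  set k := ⌊β * n / (2 * Real.pi)⌋₊ with hk
  have hle : (k : ℝ) ≤ β * n / (2 * Real.pi) := Nat.floor_le (by positivity)
  have hlt : β * n / (2 * Real.pi) < k + 1 := Nat.lt_floor_add_one _
  have hkn : k < n := by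
    have : (k : ℝ) < n := by
      apply lt_of_le_of_lt hle
      rw [div_lt_iff₀ (by positivity)]
      nlinarith
    exact_mod_cast this
  refine ⟨k, hkn, ?_⟩
  have e1 : exp (I * ((2 * Real.pi * k / n : ℝ) : ℂ)) * z - u =
      - (z * exp (I * ((2 * Real.pi * k / n : ℝ) : ℂ)) *
        (exp (I * ((β - 2 * Real.pi * k / n : ℝ) : ℂ)) - 1)) := by
    have hu' : u = z * exp (I * β) := by rw [hβ]; field_simp
    rw [hu', mul_sub, mul_assoc z, ← Complex.exp_add]
    have : I * ((2 * Real.pi * k / n : ℝ) : ℂ) + I * ((β - 2 * Real.pi * k / n : ℝ) : ℂ) = I * β := by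
      push_cast
      ring
    rw [this]
    ring
  rw [e1, norm_neg, norm_mul, norm_mul, hz, Complex.norm_exp_I_mul_ofReal, one_mul, one_mul]
  apply lt_of_le_of_lt Real.norm_exp_I_mul_ofReal_sub_one_le
  rw [Real.norm_eq_abs, abs_lt]
  have h1 : 2 * Real.pi * k / n ≤ β := by
    rw [div_le_iff₀ hn0]
    rw [le_div_iff₀ (by positivity)] at hle
    linarith
  have h2 : β < 2 * Real.pi * k / n + δ := by
    rw [div_lt_iff₀ (by positivity)] at hlt
    rw [div_lt_iff₀ hδ] at hn
    have h3 : β * n < 2 * Real.pi * k + δ * n := by nlinarith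
    have h4 : β < (2 * Real.pi * k + δ * n) / n := by
      rw [lt_div_iff₀ hn0]; exact h3
    have h5 : (2 * Real.pi * k + δ * n) / n = 2 * Real.pi * k / n + δ := by field_simp
    linarith
  constructor <;> linarith

/-- a holomorphic function on the disc, continuous on the closed disc, that omits the value `c` in
the disc is not equal to `c` on an arc -/
theorem no_const_arc {φ : ℂ → ℂ} (hφ : DiffContOnCl ℂ φ (ball 0 1)) {c : ℂ} (h0 : φ 0 ≠ c)
    {u : ℂ} (hu : ‖u‖ = 1) {δ : ℝ} (hδ : 0 < δ)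
    (harc : ∀ z : ℂ, ‖z‖ = 1 → ‖z - u‖ < δ → φ z = c) : False := by
  obtain ⟨n, hn⟩ := rot_cover hδ
  set ω : ℕ → ℂ := fun k => exp (I * ((2 * Real.pi * k / n : ℝ) : ℂ)) with hω
  have hω1 : ∀ k, ‖ω k‖ = 1 := fun k => by
    simp only [hω]
    exact Complex.norm_exp_I_mul_ofReal _
  set F : ℂ → ℂ := fun z => ∏ k ∈ Finset.range n, (φ (ω k * z) - c) with hF
  have hcl : closure (ball (0:ℂ) 1) = closedBall 0 1 := closure_ball _ one_ne_zero
  have hFd : DiffContOnCl ℂ F (ball 0 1) := by
    constructor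
    · have : ∀ k ∈ Finset.range n, DifferentiableOn ℂ (fun z => φ (ω k * z) - c) (ball 0 1) := by
        intro k _
        apply DifferentiableOn.sub_const
        apply hφ.differentiableOn.comp (by fun_prop)
        intro z hz
        rw [mem_ball_zero_iff] at hz ⊢
        rwa [norm_mul, hω1, one_mul]
      simp only [hF]
      exact DifferentiableOn.fun_finsetProd this
    · rw [hcl]
      have : ∀ k ∈ Finset.range n, ContinuousOn (fun z => φ (ω k * z) - c) (closedBall 0 1) := by
        intro k _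
        apply ContinuousOn.sub _ continuousOn_const
        have := hφ.continuousOn
        rw [hcl] at this
        apply this.comp (by fun_prop)
        intro z hz
        rw [mem_closedBall_zero_iff] at hz ⊢
        rwa [norm_mul, hω1, one_mul]
      simp only [hF]
      exact continuousOn_finsetProd _ this
  have hzero : EqOn F (fun _ => 0) (ball 0 1) := by
    apply Complex.eqOn_of_eqOn_frontier isBounded_ball hFd diffContOnCl_const
    intro z hz
    rw [frontier_ball _ one_ne_zero, mem_sphere_zero_iff_norm] at hz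
    obtain ⟨k, hk, hkn⟩ := hn z u hz hu
    simp only [hF]
    apply Finset.prod_eq_zero (Finset.mem_range.2 hk)
    rw [sub_eq_zero]
    apply harc
    · rw [norm_mul, hω1, one_mul, hz]
    · exact hkn
  have := hzero (mem_ball_self one_pos)
  simp only [hF, mul_zero] at this
  rw [Finset.prod_const] at this
  exact h0 (sub_eq_zero.1 (eq_zero_of_pow_eq_zero this))

end Pool.Agent.Loc226
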