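import Mathlib

set_option autoImplicit false

open Set Metric Complex Filter Topology MeasureTheory
open scoped ComplexConjugate

namespace Pool.Agent.Loc226

theorem det_restrictScalars_smulRight (a : ℂ) :
    (((ContinuousLinearMap.toSpanSingleton ℂ a : ℂ →L[ℂ] ℂ).restrictScalars ℝ : ℂ →L[ℝ] ℂ)).det
      = ‖a‖ ^ 2 := by
  have h1 : (((ContinuousLinearMap.toSpanSingleton ℂ a : ℂ →L[ℂ] ℂ).restrictScalars ℝ :
      ℂ →L[ℝ] ℂ) : ℂ →ₗ[ℝ] ℂ) = Algebra.lmul ℝ ℂ a := by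
    ext z
    simp [mul_comm]
  rw [ContinuousLinearMap.det, h1, ← Algebra.norm_apply, Algebra.norm_complex_apply,
    Complex.normSq_eq_norm_sq]

theorem lintegral_normSq_deriv {S : Set ℂ} (hS : IsOpen S) {F : ℂ → ℂ}
    (hF : DifferentiableOn ℂ F S) (hinj : InjOn F S) :
    ∫⁻ z in S, ENNReal.ofReal (‖deriv F z‖ ^ 2) = volume (F '' S) := by
  rw [← lintegral_abs_det_fderiv_eq_addHaar_image volume
    (f' := fun z => (ContinuousLinearMap.toSpanSingleton ℂ (deriv F z) :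
      ℂ →L[ℂ] ℂ).restrictScalars ℝ) hS.measurableSet ?_ hinj]
  · apply lintegral_congr
    intro z
    rw [det_restrictScalars_smulRight, abs_of_nonneg (by positivity)]
  · intro z hz
    have h1 : HasDerivAt F (deriv F z) z :=
      (hF.differentiableAt (hS.mem_nhds hz)).hasDerivAt
    exact (h1.hasFDerivAt.restrictScalars ℝ).hasFDerivWithinAt

/-- the domain in logarithmic coordinates -/
def LS : Set ℂ := {w | |w.im| < Real.pi ∧ ‖1 - exp w‖ < 1}

theorem isOpen_LS : IsOpen LS := by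
  have h1 : IsOpen {w : ℂ | |w.im| < Real.pi} :=
    isOpen_lt (continuous_abs.comp Complex.continuous_im) continuous_const
  have h2 : IsOpen {w : ℂ | ‖1 - exp w‖ < 1} :=
    isOpen_lt (by fun_prop) continuous_const
  exact h1.inter h2

theorem mem_LS_iff (s θ : ℝ) : ((s : ℂ) + θ * I) ∈ LS ↔
    |θ| < Real.pi ∧ Real.exp s < 2 * Real.cos θ := by
  have him : ((s : ℂ) + θ * I).im = θ := by simp
  have hexp : exp ((s : ℂ) + θ * I) = ⟨Real.exp s * Real.cos θ, Real.exp s * Real.sin θ⟩ := by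
    apply Complex.ext
    · simp [Complex.exp_re]
    · simp [Complex.exp_im]
  have hn : ‖1 - exp ((s : ℂ) + θ * I)‖ ^ 2 = 1 - Real.exp s * (2 * Real.cos θ - Real.exp s) := by
    rw [hexp, Complex.sq_norm, Complex.normSq_apply]
    simp only [Complex.sub_re, Complex.one_re, Complex.sub_im, Complex.one_im]
    linear_combination (Real.exp s) ^ 2 * (Real.sin_sq_add_cos_sq θ)
  unfold LS
  rw [mem_ofPred_eq, him]
  refine and_congr_right (fun _ => ?_)
  have hpos := Real.exp_pos s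
  have h0 := norm_nonneg (1 - exp ((s : ℂ) + θ * I))
  constructor
  · intro h
    have : ‖1 - exp ((s : ℂ) + θ * I)‖ ^ 2 < 1 := by nlinarith
    rw [hn] at this
    by_contra hcon
    push Not at hcon
    nlinarith
  · intro h
    have h2 : 0 < Real.exp s * (2 * Real.cos θ - Real.exp s) := mul_pos hpos (by linarith)
    by_contra hcon
    push Not at hcon
    nlinarith

theorem slice_convex {s θ₁ θ₂ θ : ℝ} (h1 : ((s : ℂ) + θ₁ * I) ∈ LS) (h2 : ((s : ℂ) + θ₂ * I) ∈ LS)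
    (ha : θ₁ ≤ θ) (hb : θ ≤ θ₂) : ((s : ℂ) + θ * I) ∈ LS := by
  rw [mem_LS_iff] at *
  have hmax : |θ| ≤ max |θ₁| |θ₂| := abs_le_max_abs_abs ha hb
  refine ⟨lt_of_le_of_lt hmax (max_lt h1.1 h2.1), ?_⟩
  have h3 : Real.cos (max |θ₁| |θ₂|) ≤ Real.cos θ := by
    rw [← Real.cos_abs θ]
    exact Real.cos_le_cos_of_nonneg_of_le_pi (abs_nonneg _) (max_lt h1.1 h2.1).le hmax
  rcases max_choice |θ₁| |θ₂| with h | h
  · rw [h, Real.cos_abs] at h3
    linarith [h1.2]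
  · rw [h, Real.cos_abs] at h3
    linarith [h2.2]

/-- one slice -/
theorem slice_energy {Φ : ℂ → ℂ} (hΦ : DifferentiableOn ℂ Φ LS) {s θ₁ θ₂ : ℝ}
    (h1 : ((s : ℂ) + θ₁ * I) ∈ LS) (h2 : ((s : ℂ) + θ₂ * I) ∈ LS) (h12 : θ₁ ≤ θ₂) {ε : ℝ}
    (hε : 0 < ε) (h : ε ≤ ‖Φ (s + θ₂ * I) - Φ (s + θ₁ * I)‖) :
    ENNReal.ofReal (ε ^ 2 / (2 * Real.pi)) ≤
      ∫⁻ θ : ℝ, LS.indicator (fun w => ENNReal.ofReal (‖deriv Φ w‖ ^ 2)) (s + θ * I) := by
  have hpi := Real.pi_pos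
  have hmem : ∀ θ ∈ Icc θ₁ θ₂, ((s : ℂ) + θ * I) ∈ LS := fun θ hθ => slice_convex h1 h2 hθ.1 hθ.2
  have hc : ContinuousOn (fun θ : ℝ => deriv Φ (s + θ * I)) (Icc θ₁ θ₂) := by
    have h3 : ContinuousOn (deriv Φ) LS := (hΦ.deriv isOpen_LS).continuousOn
    exact h3.comp (by fun_prop) hmem
  have hcn : ContinuousOn (fun θ : ℝ => ‖deriv Φ (s + θ * I)‖) (Icc θ₁ θ₂) := hc.norm
  have huIcc : uIcc θ₁ θ₂ = Icc θ₁ θ₂ := uIcc_of_le h12
  have hder : ∀ x ∈ uIcc θ₁ θ₂, HasDerivAt (fun x : ℝ => Φ (s + x * I))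
      (deriv Φ (s + x * I) * I) x := by
    intro x hx
    rw [huIcc] at hx
    have h3 : HasDerivAt Φ (deriv Φ (s + x * I)) (s + x * I) :=
      (hΦ.differentiableAt (isOpen_LS.mem_nhds (hmem x hx))).hasDerivAt
    have h4 : HasDerivAt (fun w : ℂ => s + w * I) (1 * I) (x : ℂ) :=
      ((hasDerivAt_id _).mul_const I).const_add _
    have h5 := HasDerivAt.comp (x : ℂ) h3 h4
    simpa using h5.comp_ofReal
  have hint : ∫ x in θ₁..θ₂, deriv Φ (s + x * I) * I = Φ (s + θ₂ * I) - Φ (s + θ₁ * I) := by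
    rw [intervalIntegral.integral_eq_sub_of_hasDerivAt hder
      (huIcc ▸ (hc.mul continuousOn_const)).intervalIntegrable]
  have h3 : ε ≤ ∫ x in θ₁..θ₂, ‖deriv Φ (s + x * I)‖ := by
    calc ε ≤ ‖Φ (s + θ₂ * I) - Φ (s + θ₁ * I)‖ := h
      _ = ‖∫ x in θ₁..θ₂, deriv Φ (s + x * I) * I‖ := by rw [hint]
      _ ≤ ∫ x in θ₁..θ₂, ‖deriv Φ (s + x * I) * I‖ :=
        intervalIntegral.norm_integral_le_integral_norm h12
      _ = _ := by simp
  have i1 : IntervalIntegrable (fun x : ℝ => ‖deriv Φ (s + x * I)‖) volume θ₁ θ₂ :=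
    (huIcc ▸ hcn).intervalIntegrable
  have i2 : IntervalIntegrable (fun x : ℝ => ‖deriv Φ (s + x * I)‖ ^ 2) volume θ₁ θ₂ :=
    (huIcc ▸ (hcn.pow 2)).intervalIntegrable
  have h4 : ∫ x in θ₁..θ₂, ‖deriv Φ (s + x * I)‖ ≤
      ∫ x in θ₁..θ₂, (Real.pi / ε * ‖deriv Φ (s + x * I)‖ ^ 2 + ε / (4 * Real.pi)) := by
    apply intervalIntegral.integral_mono_on h12 i1
    · exact (i2.const_mul _).add (by simp)
    · intro x _
      set a := ‖deriv Φ (s + x * I)‖
      have e : Real.pi / ε * a ^ 2 + ε / (4 * Real.pi) - a =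
          (Real.pi / ε) * (a - ε / (2 * Real.pi)) ^ 2 := by
        field_simp
        ring
      have : 0 ≤ (Real.pi / ε) * (a - ε / (2 * Real.pi)) ^ 2 := by positivity
      linarith
  have h5 : ∫ x in θ₁..θ₂, (Real.pi / ε * ‖deriv Φ (s + x * I)‖ ^ 2 + ε / (4 * Real.pi)) =
      Real.pi / ε * (∫ x in θ₁..θ₂, ‖deriv Φ (s + x * I)‖ ^ 2) +
        (θ₂ - θ₁) * (ε / (4 * Real.pi)) := by
    rw [intervalIntegral.integral_add (i2.const_mul _) (by simp),
      intervalIntegral.integral_const_mul, intervalIntegral.integral_const, smul_eq_mul]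
  have hwidth : θ₂ - θ₁ ≤ 2 * Real.pi := by
    rw [mem_LS_iff] at h1 h2
    have := abs_lt.1 h1.1
    have := abs_lt.1 h2.1
    linarith
  have h6 : ε ^ 2 / (2 * Real.pi) ≤ ∫ x in θ₁..θ₂, ‖deriv Φ (s + x * I)‖ ^ 2 := by
    set A := ∫ x in θ₁..θ₂, ‖deriv Φ (s + x * I)‖ ^ 2
    have h7 : ε ≤ Real.pi / ε * A + (2 * Real.pi) * (ε / (4 * Real.pi)) := by
      have : (θ₂ - θ₁) * (ε / (4 * Real.pi)) ≤ (2 * Real.pi) * (ε / (4 * Real.pi)) :=
        mul_le_mul_of_nonneg_right hwidth (by positivity)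
      linarith
    have h8 : (2 * Real.pi) * (ε / (4 * Real.pi)) = ε / 2 := by
      field_simp
      ring
    rw [h8] at h7
    have h9 : ε / 2 ≤ Real.pi / ε * A := by linarith
    have h10 : ε / 2 * ε ≤ Real.pi * A := by
      have h11 := mul_le_mul_of_nonneg_right h9 hε.le
      have h12 : Real.pi / ε * A * ε = Real.pi * A := by field_simp
      linarith
    rw [div_le_iff₀ (by positivity)]
    nlinarith
  have h7 : ENNReal.ofReal (∫ x in θ₁..θ₂, ‖deriv Φ (s + x * I)‖ ^ 2)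
      = ∫⁻ x in Ioc θ₁ θ₂, ENNReal.ofReal (‖deriv Φ (s + x * I)‖ ^ 2) := by
    rw [intervalIntegral.integral_of_le h12, ofReal_integral_eq_lintegral_ofReal]
    · exact ((hcn.pow 2).integrableOn_Icc).mono_set Ioc_subset_Icc_self
    · exact ae_of_all _ (fun x => by positivity)
  calc ENNReal.ofReal (ε ^ 2 / (2 * Real.pi))
      ≤ ENNReal.ofReal (∫ x in θ₁..θ₂, ‖deriv Φ (s + x * I)‖ ^ 2) := ENNReal.ofReal_le_ofReal h6
    _ = ∫⁻ x in Ioc θ₁ θ₂, ENNReal.ofReal (‖deriv Φ (s + x * I)‖ ^ 2) := h7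
    _ = ∫⁻ x in Ioc θ₁ θ₂, LS.indicator (fun w => ENNReal.ofReal (‖deriv Φ w‖ ^ 2)) (s + x * I) := by
        apply setLIntegral_congr_fun measurableSet_Ioc
        intro x hx
        simp only
        rw [indicator_of_mem (hmem x ⟨hx.1.le, hx.2⟩)]
    _ ≤ _ := setLIntegral_le_lintegral _ _

theorem fubini_LS {g : ℂ → ENNReal} (hg : Measurable g) :
    ∫⁻ w, g w = ∫⁻ s : ℝ, ∫⁻ θ : ℝ, g (s + θ * I) := by
  rw [← (Complex.volume_preserving_equiv_real_prod.symm).lintegral_comp_emb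
      Complex.measurableEquivRealProd.symm.measurableEmbedding]
  rw [Measure.volume_eq_prod, lintegral_prod]
  · apply lintegral_congr
    intro y
    apply lintegral_congr
    intro x
    simp only [Complex.measurableEquivRealProd_symm_apply]
    rw [Complex.mk_eq_add_mul_I]
  · exact (hg.comp Complex.measurableEquivRealProd.symm.measurable).aemeasurable

/-- the length-area principle: short crosscuts -/
theorem exists_short {φ : ℂ → ℂ} (hd : DifferentiableOn ℂ φ (ball 0 1)) (hi : InjOn φ (ball 0 1))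
    {M : ℝ} (hM : ∀ z ∈ ball (0:ℂ) 1, ‖φ z‖ ≤ M) {ζ : ℂ} (hζ : ‖ζ‖ = 1) {ε : ℝ} (hε : 0 < ε)
    {ρ₀ : ℝ} (hρ₀ : 0 < ρ₀) : ∃ ρ, 0 < ρ ∧ ρ < ρ₀ ∧ ∀ z ∈ ball (0:ℂ) 1, ∀ w ∈ ball (0:ℂ) 1,
      ‖z - ζ‖ = ρ → ‖w - ζ‖ = ρ → ‖φ z - φ w‖ ≤ ε := by
  by_contra hcon
  push Not at hcon
  have hpi := Real.pi_pos
  have hζ0 : ζ ≠ 0 := by rintro rfl; simp at hζ
  set Φ : ℂ → ℂ := fun w => φ (ζ - ζ * exp w) with hΦdef
  have hmaps : ∀ w ∈ LS, ζ - ζ * exp w ∈ ball (0:ℂ) 1 := by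
    intro w hw
    rw [mem_ball_zero_iff]
    have : ζ - ζ * exp w = ζ * (1 - exp w) := by ring
    rw [this, norm_mul, hζ, one_mul]
    exact hw.2
  have hΦ : DifferentiableOn ℂ Φ LS := hd.comp (by fun_prop) hmaps
  have hΦi : InjOn Φ LS := by
    intro w hw v hv h
    have h1 := hi (hmaps w hw) (hmaps v hv) h
    have h2 : exp w = exp v := by
      have : ζ * exp w = ζ * exp v := by linear_combination -h1
      exact mul_left_cancel₀ hζ0 this
    have h3 := abs_lt.1 hw.1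
    have h4 := abs_lt.1 hv.1
    exact Complex.exp_inj_of_neg_pi_lt_of_le_pi h3.1 h3.2.le h4.1 h4.2.le h2
  set g : ℂ → ENNReal := LS.indicator (fun w => ENNReal.ofReal (‖deriv Φ w‖ ^ 2)) with hg
  have hgm : Measurable g :=
    (((measurable_deriv Φ).norm.pow_const 2).ennreal_ofReal).indicator isOpen_LS.measurableSet
  have hup : ∫⁻ w, g w < ⊤ := by
    rw [hg, lintegral_indicator isOpen_LS.measurableSet, lintegral_normSq_deriv isOpen_LS hΦ hΦi]
    apply lt_of_le_of_lt (measure_mono (t := closedBall (0:ℂ) M) _) measure_closedBall_lt_top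
    rintro _ ⟨w, hw, rfl⟩
    rw [mem_closedBall_zero_iff]
    exact hM _ (hmaps w hw)
  have hlow : ∀ s ∈ Iio (Real.log ρ₀), ENNReal.ofReal (ε ^ 2 / (2 * Real.pi)) ≤
      ∫⁻ θ : ℝ, g (s + θ * I) := by
    intro s hs
    have hs' : Real.exp s < ρ₀ := by
      rw [← Real.exp_log hρ₀]
      exact Real.exp_lt_exp.2 hs
    obtain ⟨z, hz, w, hw, hzρ, hwρ, hzw⟩ := hcon (Real.exp s) (Real.exp_pos s) hs'
    -- angles
    have hang : ∀ z ∈ ball (0:ℂ) 1, ‖z - ζ‖ = Real.exp s → ∃ θ : ℝ, ((s : ℂ) + θ * I) ∈ LS ∧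
        z = ζ - ζ * exp (s + θ * I) := by
      intro z hz hzρ
      rw [mem_ball_zero_iff] at hz
      set v := (ζ - z) / ζ with hv
      have hvn : ‖v‖ = Real.exp s := by rw [hv, norm_div, hζ, div_one, ← hzρ, norm_sub_rev]
      have hv0 : v ≠ 0 := by
        rw [← norm_pos_iff, hvn]
        exact Real.exp_pos s
      have hlog : (s : ℂ) + (arg v : ℝ) * I = log v := by
        rw [Complex.log, hvn, Real.log_exp]
      have hev : exp ((s : ℂ) + (arg v : ℝ) * I) = v := by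
        rw [hlog, exp_log hv0]
      have h1v : ‖1 - v‖ < 1 := by
        have : 1 - v = z / ζ := by rw [hv]; field_simp; ring
        rw [this, norm_div, hζ, div_one]
        exact hz
      have hre : 0 < v.re := by
        have h1 : |(1 - v).re| < 1 := lt_of_le_of_lt (Complex.abs_re_le_norm _) h1v
        rw [Complex.sub_re, Complex.one_re, abs_lt] at h1
        linarith
      refine ⟨arg v, ⟨?_, ?_⟩, ?_⟩
      · have : ((s : ℂ) + (arg v : ℝ) * I).im = arg v := by simp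
        rw [this]
        have := Complex.abs_arg_lt_pi_div_two_iff.2 (Or.inl hre)
        linarith
      · rw [hev]
        exact h1v
      · rw [hev, hv]
        field_simp
        ring
    obtain ⟨θ₁, h1, rfl⟩ := hang z hz hzρ
    obtain ⟨θ₂, h2, rfl⟩ := hang w hw hwρ
    rcases le_total θ₁ θ₂ with h12 | h12
    · apply slice_energy hΦ h1 h2 h12 hε
      rw [norm_sub_rev]
      exact hzw.le
    · exact slice_energy hΦ h2 h1 h12 hε hzw.le
  have hc0 : ENNReal.ofReal (ε ^ 2 / (2 * Real.pi)) ≠ 0 := by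
    rw [ne_eq, ENNReal.ofReal_eq_zero]
    push Not
    positivity
  have : (⊤ : ENNReal) ≤ ∫⁻ w, g w := by
    calc (⊤ : ENNReal) = ∫⁻ _ in Iio (Real.log ρ₀), ENNReal.ofReal (ε ^ 2 / (2 * Real.pi)) := by
          rw [lintegral_const, Measure.restrict_apply_univ, Real.volume_Iio, ENNReal.mul_top hc0]
      _ ≤ ∫⁻ s in Iio (Real.log ρ₀), ∫⁻ θ : ℝ, g (s + θ * I) :=
          setLIntegral_mono' measurableSet_Iio hlow
      _ ≤ ∫⁻ s : ℝ, ∫⁻ θ : ℝ, g (s + θ * I) := setLIntegral_le_lintegral _ _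
      _ = ∫⁻ w, g w := (fubini_LS hgm).symm
  exact absurd hup (not_lt.2 this)

end Pool.Agent.Loc226
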