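import Mathlib
import Pool.Agent.Work.MP_c9b226_loc.A
import Pool.Agent.Work.MP_c9b226_loc.L

set_option autoImplicit false

open Set Metric Complex Filter Topology
open scoped ComplexConjugate

namespace Pool.Agent.Loc226

/-- the inverse of a continuous injection of a compact set is continuous -/
theorem cont_inv {K : Set ℂ} (hK : IsCompact K) {f : ℂ → ℂ} (hf : ContinuousOn f K)
    (hi : InjOn f K) : ContinuousOn (Function.invFunOn f K) (f '' K) := by
  rw [continuousOn_iff_isClosed]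
  intro t ht
  refine ⟨f '' (K ∩ t), ((hK.inter_right ht).image_of_continuousOn (hf.mono inter_subset_left)).isClosed, ?_⟩
  ext y
  constructor
  · rintro ⟨hy1, x, hx, rfl⟩
    have h1 : Function.invFunOn f K (f x) = x := hi.leftInvOn_invFunOn hx
    rw [mem_preimage, h1] at hy1
    exact ⟨⟨x, ⟨hx, hy1⟩, rfl⟩, ⟨x, hx, rfl⟩⟩
  · rintro ⟨⟨x, ⟨hx, hxt⟩, rfl⟩, -⟩
    have h1 : Function.invFunOn f K (f x) = x := hi.leftInvOn_invFunOn hx
    exact ⟨by rw [mem_preimage, h1]; exact hxt, ⟨x, hx, rfl⟩⟩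

/-- an injective holomorphic map is open and its inverse is continuous -/
theorem open_inv {U : Set ℂ} (hU : IsOpen U) (hUc : IsPreconnected U) (hUn : U.Nonempty) {φ : ℂ → ℂ}
    (hd : DifferentiableOn ℂ φ U) (hi : InjOn φ U) :
    (∀ s ⊆ U, IsOpen s → IsOpen (φ '' s)) ∧ ContinuousOn (Function.invFunOn φ U) (φ '' U) := by
  have hopen : ∀ s ⊆ U, IsOpen s → IsOpen (φ '' s) := by
    rcases (hd.analyticOnNhd hU).is_constant_or_isOpen hUc with ⟨w, hw⟩ | h
    · exfalso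
      obtain ⟨x, hx⟩ := hUn
      obtain ⟨r, hr, hrU⟩ := Metric.isOpen_iff.1 hU x hx
      have hy : x + ((r / 2 : ℝ) : ℂ) ∈ U := by
        apply hrU
        rw [mem_ball, dist_eq_norm, add_sub_cancel_left, Complex.norm_real,
          Real.norm_of_nonneg (by linarith)]
        linarith
      have h1 := hi hx hy (by rw [hw x hx, hw _ hy])
      have h2 : ((r / 2 : ℝ) : ℂ) = 0 := by linear_combination -h1
      rw [Complex.ofReal_eq_zero] at h2
      linarith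
    · exact h
  refine ⟨hopen, ?_⟩
  rw [_root_.continuousOn_iff']
  intro t ht
  refine ⟨φ '' (U ∩ t), hopen _ inter_subset_left (hU.inter ht), ?_⟩
  ext y
  constructor
  · rintro ⟨hy1, x, hx, rfl⟩
    have h1 : Function.invFunOn φ U (φ x) = x := hi.leftInvOn_invFunOn hx
    rw [mem_preimage, h1] at hy1
    exact ⟨⟨x, ⟨hx, hy1⟩, rfl⟩, ⟨x, hx, rfl⟩⟩
  · rintro ⟨⟨x, ⟨hx, hxt⟩, rfl⟩, -⟩
    have h1 : Function.invFunOn φ U (φ x) = x := hi.leftInvOn_invFunOn hx
    exact ⟨by rw [mem_preimage, h1]; exact hxt, ⟨x, hx, rfl⟩⟩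

/-- properness of a homeomorphism of the disc -/
theorem proper_disc {g h : ℂ → ℂ}
    (hh : MapsTo h (ball 0 1) (ball 0 1)) (hhc : ContinuousOn h (ball 0 1))
    (hhg : ∀ x ∈ ball (0:ℂ) 1, h (g x) = x) {ε : ℝ} (hε : 0 < ε) :
    ∃ ρ > 0, ∀ z ∈ ball (0:ℂ) 1, 1 - ρ < ‖z‖ → 1 - ε < ‖g z‖ := by
  set K : Set ℂ := closedBall 0 (1 - ε) with hK
  have hKb : K ⊆ ball 0 1 := closedBall_subset_ball (by linarith)
  have hKc : IsCompact (h '' K) := (isCompact_closedBall _ _).image_of_continuousOn (hhc.mono hKb)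
  have hm : ∃ m < 1, ∀ y ∈ h '' K, ‖y‖ ≤ m := by
    rcases (h '' K).eq_empty_or_nonempty with he | hne
    · exact ⟨0, one_pos, by rw [he]; simp⟩
    · obtain ⟨y, hy, hmax⟩ := hKc.exists_isMaxOn hne continuous_norm.continuousOn
      refine ⟨‖y‖, ?_, fun z hz => hmax hz⟩
      obtain ⟨x, hx, rfl⟩ := hy
      exact mem_ball_zero_iff.1 (hh (hKb hx))
  obtain ⟨m, hm1, hm⟩ := hm
  refine ⟨1 - m, by linarith, fun z hz hzn => ?_⟩
  by_contra hcon
  push Not at hcon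
  have : g z ∈ K := by rw [hK, mem_closedBall_zero_iff]; exact hcon
  have h1 := hm (h (g z)) ⟨g z, this, rfl⟩
  rw [hhg z hz] at h1
  linarith

/-- the crosscut argument -/
theorem crosscut {g h : ℂ → ℂ} (hg : MapsTo g (ball 0 1) (ball 0 1))
    (hh : MapsTo h (ball 0 1) (ball 0 1)) (hhc : ContinuousOn h (ball 0 1))
    (hhg : ∀ x ∈ ball (0:ℂ) 1, h (g x) = x) (hgh : ∀ x ∈ ball (0:ℂ) 1, g (h x) = x)
    (h0 : g 0 = 0)
    (hsc : ∀ ζ : ℂ, ‖ζ‖ = 1 → ∀ ε > 0, ∀ ρ₀ > 0, ∃ ρ, 0 < ρ ∧ ρ < ρ₀ ∧ ∀ z ∈ ball (0:ℂ) 1,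
      ∀ w ∈ ball (0:ℂ) 1, ‖z - ζ‖ = ρ → ‖w - ζ‖ = ρ → ‖g z - g w‖ ≤ ε)
    {ζ : ℂ} (hζ : ‖ζ‖ = 1) {ε₁ : ℝ} (hε₁ : 0 < ε₁) :
    ∃ ρ > 0, ∃ q : ℂ, ∀ z ∈ ball (0:ℂ) 1, ‖z - ζ‖ < ρ → ‖g z - q‖ ≤ ε₁ := by
  have hh0 : h 0 = 0 := by
    have := hhg 0 (mem_ball_self one_pos)
    rwa [h0] at this
  set ε : ℝ := min (ε₁ ^ 2 / 4) (1 / 4) with hεdef
  have hε : 0 < ε := by positivity
  have hε1 : ε ≤ ε₁ ^ 2 / 4 := min_le_left _ _
  have hε2 : ε ≤ 1 / 4 := min_le_right _ _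
  obtain ⟨ρ₀, hρ₀, hprop⟩ := proper_disc hh hhc hhg hε
  obtain ⟨ρ, hρ, hρlt, hcc⟩ := hsc ζ hζ ε hε (min ρ₀ 1) (by positivity)
  have hρ0 : ρ < ρ₀ := lt_of_lt_of_le hρlt (min_le_left _ _)
  have hρ1 : ρ < 1 := lt_of_lt_of_le hρlt (min_le_right _ _)
  set z₀ : ℂ := ((1 - ρ : ℝ) : ℂ) * ζ with hz₀
  have hz₀n : ‖z₀‖ = 1 - ρ := by
    rw [hz₀, norm_mul, hζ, mul_one, Complex.norm_real, Real.norm_of_nonneg (by linarith)]
  have hz₀b : z₀ ∈ ball (0:ℂ) 1 := by rw [mem_ball_zero_iff, hz₀n]; linarith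
  have hz₀ζ : ‖z₀ - ζ‖ = ρ := by
    have : z₀ - ζ = ((-ρ : ℝ) : ℂ) * ζ := by rw [hz₀]; push_cast; ring
    rw [this, norm_mul, hζ, mul_one, Complex.norm_real, norm_neg, Real.norm_of_nonneg hρ.le]
  set c := g z₀ with hc
  have hcb : ‖c‖ < 1 := mem_ball_zero_iff.1 (hg hz₀b)
  have hcn : 1 - ε < ‖c‖ := hprop z₀ hz₀b (by rw [hz₀n]; linarith)
  have hc0 : 0 < ‖c‖ := by linarith
  have hc0' : ((‖c‖ : ℝ) : ℂ) ≠ 0 := by exact_mod_cast hc0.ne'
  set q : ℂ := c / ‖c‖ with hq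
  have hqn : ‖q‖ = 1 := by
    rw [hq, norm_div, Complex.norm_real, norm_norm, div_self hc0.ne']
  have hcq : ‖c - q‖ < ε := by
    have e : c - q = -(((1 - ‖c‖ : ℝ) : ℂ) * q) := by
      rw [hq]; push_cast; field_simp; ring
    rw [e, norm_neg, norm_mul, hqn, mul_one, Complex.norm_real, Real.norm_of_nonneg (by linarith)]
    linarith
  -- the convex domain
  have hRe : ∀ x : ℂ, (x * conj q).re = x.re * q.re + x.im * q.im := by
    intro x
    simp
  have hq1 := norm_sq_re_im hqn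
  set D : Set ℂ := ball 0 1 ∩ {x | (x * conj q).re < 1 - 2 * ε} with hD
  have hDc : IsPreconnected D := by
    apply Convex.isPreconnected
    apply (convex_ball _ _).inter
    have e : {x : ℂ | (x * conj q).re < 1 - 2 * ε} = {x : ℂ | x.re * q.re + x.im * q.im < 1 - 2 * ε} := by
      ext x
      rw [mem_ofPred_eq, mem_ofPred_eq, hRe]
    rw [e]
    intro x hx y hy a b ha hb hab
    simp only [mem_ofPred_eq] at hx hy ⊢
    simp only [Complex.add_re, Complex.add_im, Complex.real_smul, Complex.mul_re, Complex.mul_im,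
      Complex.ofReal_re, Complex.ofReal_im, zero_mul, sub_zero, add_zero]
    rcases ha.eq_or_lt with ha' | ha'
    · have hb1 : b = 1 := by linarith
      rw [← ha', hb1]
      linarith
    · have h1 := mul_lt_mul_of_pos_left hx ha'
      have h2 := mul_le_mul_of_nonneg_left hy.le hb
      have h3 : a * (1 - 2 * ε) + b * (1 - 2 * ε) = 1 - 2 * ε := by rw [← add_mul, hab, one_mul]
      nlinarith
  have hcut : ∀ x ∈ D, ‖h x - ζ‖ ≠ ρ := by
    intro x hx hxρ
    have hxb : x ∈ ball (0:ℂ) 1 := hx.1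
    have h1 := hcc (h x) (hh hxb) z₀ hz₀b hxρ hz₀ζ
    rw [hgh x hxb] at h1
    have h2 : ‖x - q‖ < 2 * ε := by
      calc ‖x - q‖ = ‖(x - c) + (c - q)‖ := by ring_nf
        _ ≤ ‖x - c‖ + ‖c - q‖ := norm_add_le _ _
        _ < 2 * ε := by linarith
    have h3 : 1 - 2 * ε < (x * conj q).re := by
      have e : (x * conj q).re = 1 + ((x - q) * conj q).re := by
        rw [hRe, hRe]
        simp only [Complex.sub_re, Complex.sub_im]
        nlinarith
      have h4 : |((x - q) * conj q).re| ≤ ‖(x - q) * conj q‖ := Complex.abs_re_le_norm _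
      rw [norm_mul, Complex.norm_conj, hqn, mul_one] at h4
      have h5 := (abs_le.1 h4).1
      linarith
    have h4 := hx.2
    rw [mem_ofPred_eq] at h4
    linarith
  have h0D : (0:ℂ) ∈ D := by
    refine ⟨mem_ball_self one_pos, ?_⟩
    simp only [mem_ofPred_eq, zero_mul, Complex.zero_re]
    linarith
  have hpos : ∀ x ∈ D, ρ < ‖h x - ζ‖ := by
    intro x hx
    by_contra hcon
    push Not at hcon
    have hcont : ContinuousOn (fun x => ‖h x - ζ‖) D :=
      ((hhc.mono inter_subset_left).sub continuousOn_const).norm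
    have h1 : ρ ∈ Icc ‖h x - ζ‖ ‖h 0 - ζ‖ := by
      refine ⟨hcon, ?_⟩
      rw [hh0, zero_sub, norm_neg, hζ]
      exact hρ1.le
    obtain ⟨y, hy, hyρ⟩ := hDc.intermediate_value hx h0D hcont h1
    exact hcut y hy hyρ
  refine ⟨ρ, hρ, q, fun z hz hzζ => ?_⟩
  have hgz : g z ∉ D := by
    intro hgz
    have := hpos _ hgz
    rw [hhg z hz] at this
    linarith
  have hgb := hg hz
  have h1 : 1 - 2 * ε ≤ (g z * conj q).re := by
    by_contra hcon
    push Not at hcon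
    exact hgz ⟨hgb, hcon⟩
  have h2 : ‖g z - q‖ ^ 2 ≤ 4 * ε := by
    rw [Complex.sq_norm, Complex.normSq_apply]
    rw [hRe] at h1
    have h3 : (g z).re ^ 2 + (g z).im ^ 2 ≤ 1 := by
      have h4 := Complex.sq_norm (g z)
      rw [Complex.normSq_apply] at h4
      have h5 := mem_ball_zero_iff.1 hgb
      have h6 := norm_nonneg (g z)
      nlinarith
    simp only [Complex.sub_re, Complex.sub_im]
    nlinarith
  have h3 : ‖g z - q‖ ^ 2 ≤ ε₁ ^ 2 := by linarith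
  exact (abs_le_of_sq_le_sq' h3 hε₁.le).2

/-- continuous extension to the closed disc -/
theorem exists_extension {g h : ℂ → ℂ} (hg : MapsTo g (ball 0 1) (ball 0 1))
    (hh : MapsTo h (ball 0 1) (ball 0 1)) (hgc : ContinuousOn g (ball 0 1))
    (hhc : ContinuousOn h (ball 0 1))
    (hhg : ∀ x ∈ ball (0:ℂ) 1, h (g x) = x) (hgh : ∀ x ∈ ball (0:ℂ) 1, g (h x) = x)
    (h0 : g 0 = 0)
    (hsc : ∀ ζ : ℂ, ‖ζ‖ = 1 → ∀ ε > 0, ∀ ρ₀ > 0, ∃ ρ, 0 < ρ ∧ ρ < ρ₀ ∧ ∀ z ∈ ball (0:ℂ) 1,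
      ∀ w ∈ ball (0:ℂ) 1, ‖z - ζ‖ = ρ → ‖w - ζ‖ = ρ → ‖g z - g w‖ ≤ ε) :
    ∃ G : ℂ → ℂ, ContinuousOn G (closedBall 0 1) ∧ EqOn G g (ball 0 1) ∧
      (∀ ζ : ℂ, ‖ζ‖ = 1 → ‖G ζ‖ = 1) := by
  have hcl : closure (ball (0:ℂ) 1) = closedBall 0 1 := closure_ball _ one_ne_zero
  have hlim : ∀ x ∈ closedBall (0:ℂ) 1, ∃ y, Tendsto g (𝓝[ball 0 1] x) (𝓝 y) := by
    intro x hx
    by_cases hxb : x ∈ ball (0:ℂ) 1
    · exact ⟨g x, hgc x hxb⟩
    · have hx1 : ‖x‖ = 1 := by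
        rw [mem_closedBall_zero_iff] at hx
        rw [mem_ball_zero_iff] at hxb
        linarith
      have hne : (𝓝[ball (0:ℂ) 1] x).NeBot := mem_closure_iff_nhdsWithin_neBot.1 (by rwa [hcl])
      have hca : Cauchy (Filter.map g (𝓝[ball (0:ℂ) 1] x)) := by
        rw [Metric.cauchy_iff]
        refine ⟨hne.map g, fun ε hε => ?_⟩
        obtain ⟨ρ, hρ, q, hq⟩ := crosscut hg hh hhc hhg hgh h0 hsc hx1 (ε₁ := ε / 3) (by positivity)
        refine ⟨g '' (ball 0 1 ∩ ball x ρ), image_mem_map (inter_mem self_mem_nhdsWithin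
          (mem_nhdsWithin_of_mem_nhds (ball_mem_nhds x hρ))), ?_⟩
        rintro _ ⟨y, hy, rfl⟩ _ ⟨z, hz, rfl⟩
        have h1 := hq y hy.1 (by simpa [dist_eq_norm] using hy.2)
        have h2 := hq z hz.1 (by simpa [dist_eq_norm] using hz.2)
        rw [dist_eq_norm]
        calc ‖g y - g z‖ = ‖(g y - q) - (g z - q)‖ := by ring_nf
          _ ≤ ‖g y - q‖ + ‖g z - q‖ := norm_sub_le _ _
          _ < ε := by linarith
      obtain ⟨y, hy⟩ := cauchy_iff_exists_le_nhds.1 hca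
      exact ⟨y, hy⟩
  refine ⟨extendFrom (ball 0 1) g, ?_, ?_, ?_⟩
  · exact continuousOn_extendFrom (by rw [hcl]) hlim
  · exact fun x hx => extendFrom_extends hgc x hx
  · intro ζ hζ
    have hζc : ζ ∈ closedBall (0:ℂ) 1 := by rw [mem_closedBall_zero_iff]; exact hζ.le
    have hne : (𝓝[ball (0:ℂ) 1] ζ).NeBot := mem_closure_iff_nhdsWithin_neBot.1 (by rwa [hcl])
    have ht := (tendsto_extendFrom (hlim ζ hζc)).norm
    apply le_antisymm
    · apply le_of_tendsto ht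
      filter_upwards [self_mem_nhdsWithin] with z hz
      exact (mem_ball_zero_iff.1 (hg hz)).le
    · apply le_of_forall_pos_lt_add
      intro ε hε
      obtain ⟨ρ, hρ, hprop⟩ := proper_disc hh hhc hhg (ε := ε / 2) (by positivity)
      have : 1 - ε / 2 ≤ ‖extendFrom (ball 0 1) g ζ‖ := by
        apply ge_of_tendsto ht
        filter_upwards [self_mem_nhdsWithin, mem_nhdsWithin_of_mem_nhds (ball_mem_nhds ζ hρ)]
          with z hz hzρ
        apply (hprop z hz _).le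
        rw [mem_ball, dist_eq_norm] at hzρ
        have h1 : ‖ζ‖ - ‖z‖ ≤ ‖z - ζ‖ := by
          rw [norm_sub_rev]
          exact norm_sub_norm_le _ _
        linarith
      linarith

/-- if the extension takes the same value at two points of the circle, then it is constant on an
arc -/
theorem const_arc {g h G : ℂ → ℂ} (hg : MapsTo g (ball 0 1) (ball 0 1))
    (hh : MapsTo h (ball 0 1) (ball 0 1)) (hhc : ContinuousOn h (ball 0 1))
    (hhg : ∀ x ∈ ball (0:ℂ) 1, h (g x) = x) (hgh : ∀ x ∈ ball (0:ℂ) 1, g (h x) = x)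
    (hG : ContinuousOn G (closedBall 0 1)) (hGg : EqOn G g (ball 0 1))
    (hG1 : ∀ ζ : ℂ, ‖ζ‖ = 1 → ‖G ζ‖ = 1) {c d : ℂ} (hc : ‖c‖ = 1) (hd : ‖d‖ = 1) (hcd : c ≠ d)
    (hGcd : G c = G d) : ∃ u : ℂ, ‖u‖ = 1 ∧ ∃ δ > 0, ∀ z : ℂ, ‖z‖ = 1 → ‖z - u‖ < δ → G z = G c := by
  set q := G c with hq
  have key : ∀ a b : ℂ, ‖a‖ = 1 → ‖b‖ = 1 → cr c d a * cr c d b < 0 → G a = q ∨ G b = q := by
    intro a b ha hb hab
    by_contra hcon
    push Not at hcon
    obtain ⟨haq, hbq⟩ := hcon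
    have hne : a ≠ b := by
      rintro rfl
      nlinarith [mul_self_nonneg (cr c d a)]
    have hseg : segment ℝ a b ⊆ closedBall (0:ℂ) 1 :=
      (convex_closedBall _ _).segment_subset (by simp [ha]) (by simp [hb])
    have hsegq : ∀ x ∈ segment ℝ a b, G x ≠ q := by
      intro x hx hxq
      by_cases hx1 : ‖x‖ = 1
      · rcases eq_end_of_mem_segment ha hb hx1 hx with rfl | rfl
        · exact haq hxq
        · exact hbq hxq
      · have hxb : x ∈ ball (0:ℂ) 1 := by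
          have := mem_closedBall_zero_iff.1 (hseg hx)
          rw [mem_ball_zero_iff]
          exact lt_of_le_of_ne this hx1
        have h1 := mem_ball_zero_iff.1 (hg hxb)
        rw [← hGg hxb, hxq, hq, hG1 c hc] at h1
        exact lt_irrefl _ h1
    have hcomp : IsCompact (segment ℝ a b) := by
      rw [segment_eq_image_lineMap]
      exact isCompact_Icc.image (by fun_prop)
    obtain ⟨x₀, hx₀, hmin⟩ := hcomp.exists_isMinOn ⟨a, left_mem_segment ℝ a b⟩
      (((hG.mono hseg).sub continuousOn_const).norm : ContinuousOn (fun x => ‖G x - q‖) _)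
    set s := ‖G x₀ - q‖ with hs
    have hs0 : 0 < s := norm_pos_iff.2 (sub_ne_zero.2 (hsegq x₀ hx₀))
    set N : Set ℂ := ball 0 1 ∩ ball q s with hN
    have hNc : IsPreconnected N := ((convex_ball _ _).inter (convex_ball _ _)).isPreconnected
    have hS : IsPreconnected (h '' N) := hNc.image h (hhc.mono inter_subset_left)
    have hSb : ∀ x ∈ h '' N, ‖x‖ ≤ 1 := by
      rintro _ ⟨y, hy, rfl⟩
      exact (mem_ball_zero_iff.1 (hh hy.1)).le
    -- points near `c` and `d`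
    have hnear : ∀ ζ : ℂ, ‖ζ‖ = 1 → G ζ = q → cr a b ζ ≠ 0 → ∃ z ∈ h '' N, 0 < cr a b z * cr a b ζ := by
      intro ζ hζ hζq hζ0
      have hζc : ζ ∈ closedBall (0:ℂ) 1 := by simp [hζ]
      have hcl : closure (ball (0:ℂ) 1) = closedBall 0 1 := closure_ball _ one_ne_zero
      have hne : (𝓝[ball (0:ℂ) 1] ζ).NeBot := mem_closure_iff_nhdsWithin_neBot.1 (by rwa [hcl])
      have h1 : Tendsto G (𝓝[ball (0:ℂ) 1] ζ) (𝓝 q) := by
        rw [← hζq]
        exact (hG ζ hζc).mono_left (nhdsWithin_mono _ ball_subset_closedBall)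
      have h2 : ∀ᶠ z in 𝓝[ball (0:ℂ) 1] ζ, G z ∈ ball q s := h1 (ball_mem_nhds q hs0)
      have h3 : ∀ᶠ z in 𝓝[ball (0:ℂ) 1] ζ, 0 < cr a b z * cr a b ζ := by
        apply mem_nhdsWithin_of_mem_nhds
        have hcont : Continuous (fun z => cr a b z * cr a b ζ) := (cr_continuous a b).mul_const _
        have : (0:ℝ) < cr a b ζ * cr a b ζ := by
          have := mul_self_pos.2 hζ0
          exact this
        exact (isOpen_lt continuous_const hcont).mem_nhds this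
      obtain ⟨z, hz1, hz2, hz3⟩ := (h2.and (h3.and self_mem_nhdsWithin)).exists
      refine ⟨z, ⟨g z, ⟨hg hz3, ?_⟩, hhg z hz3⟩, hz2⟩
      rw [← hGg hz3]
      exact hz1
    have hcross := cr_cross ha hb hc hd hab
    have hc0 : cr a b c ≠ 0 := by
      intro h0
      rw [h0, zero_mul] at hcross
      exact lt_irrefl _ hcross
    have hd0 : cr a b d ≠ 0 := by
      intro h0
      rw [h0, mul_zero] at hcross
      exact lt_irrefl _ hcross
    obtain ⟨z, hz, hz0⟩ := hnear c hc rfl hc0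
    obtain ⟨w, hw, hw0⟩ := hnear d hd hGcd.symm hd0
    have hzw : cr a b z * cr a b w < 0 := by
      have h1 : 0 < (cr a b z * cr a b c) * (cr a b w * cr a b d) := mul_pos hz0 hw0
      by_contra hcon
      push Not at hcon
      have h2 : (cr a b z * cr a b w) * (cr a b c * cr a b d) ≤ 0 :=
        mul_nonpos_of_nonneg_of_nonpos hcon hcross.le
      nlinarith
    obtain ⟨x, ⟨y, hy, rfl⟩, hxs⟩ := exists_mem_segment hS hSb ha hb hz hw hzw
    have h1 : s ≤ ‖G (h y) - q‖ := hmin hxs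
    rw [hGg (hh hy.1), hgh y hy.1] at h1
    have h2 := hy.2
    rw [mem_ball, dist_eq_norm] at h2
    linarith
  obtain ⟨⟨a, ha, ha0⟩, ⟨b, hb, hb0⟩⟩ := arc_exists hc hd hcd
  by_cases hall : ∀ z : ℂ, ‖z‖ = 1 → 0 < cr c d z → G z = q
  · have hopen : IsOpen {z | 0 < cr c d z} := isOpen_lt continuous_const (cr_continuous c d)
    obtain ⟨δ, hδ, hδs⟩ := Metric.isOpen_iff.1 hopen a ha0
    refine ⟨a, ha, δ, hδ, fun z hz hza => hall z hz (hδs ?_)⟩
    rwa [mem_ball, dist_eq_norm]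
  · push Not at hall
    obtain ⟨a', ha', ha'0, ha'q⟩ := hall
    have hopen : IsOpen {z | cr c d z < 0} := isOpen_lt (cr_continuous c d) continuous_const
    obtain ⟨δ, hδ, hδs⟩ := Metric.isOpen_iff.1 hopen b hb0
    refine ⟨b, hb, δ, hδ, fun z hz hzb => ?_⟩
    have hz0 : cr c d z < 0 := hδs (by rwa [mem_ball, dist_eq_norm])
    rcases key a' z ha' hz (mul_neg_of_pos_of_neg ha'0 hz0) with h1 | h1
    · exact absurd h1 ha'q
    · exact h1

/-- **Carathéodory's theorem** for the domain `f (ball 0 1)`, `f` a continuous injection of the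
closed disc -/
theorem caratheodory {f φ : ℂ → ℂ} (hf : ContinuousOn f (closedBall 0 1))
    (hfi : InjOn f (closedBall 0 1)) (hφ : DifferentiableOn ℂ φ (ball 0 1))
    (hφi : InjOn φ (ball 0 1)) (him : φ '' ball 0 1 = f '' ball 0 1) (h0 : φ 0 = f 0) :
    ∃ G H : ℂ → ℂ, ContinuousOn G (closedBall 0 1) ∧ ContinuousOn H (closedBall 0 1) ∧
      MapsTo G (closedBall 0 1) (closedBall 0 1) ∧ MapsTo H (closedBall 0 1) (closedBall 0 1) ∧
      (∀ x ∈ closedBall (0:ℂ) 1, H (G x) = x) ∧ (∀ x ∈ closedBall (0:ℂ) 1, G (H x) = x) ∧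
      (∀ x : ℂ, ‖x‖ = 1 → ‖G x‖ = 1) ∧ (∀ x : ℂ, ‖x‖ = 1 → ‖H x‖ = 1) ∧ G 0 = 0 ∧
      (∀ x ∈ ball (0:ℂ) 1, f (G x) = φ x) ∧ (∀ x ∈ ball (0:ℂ) 1, H x ∈ ball (0:ℂ) 1) ∧
      ∀ x ∈ ball (0:ℂ) 1, φ (H x) = f x := by
  have hcbc : IsCompact (closedBall (0:ℂ) 1) := isCompact_closedBall _ _
  set fi := Function.invFunOn f (closedBall 0 1) with hfi'
  set φi := Function.invFunOn φ (ball 0 1) with hφi'
  have hfic : ContinuousOn fi (f '' closedBall 0 1) := cont_inv hcbc hf hfi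
  have hfif : ∀ x ∈ closedBall (0:ℂ) 1, fi (f x) = x := fun x hx => hfi.leftInvOn_invFunOn hx
  have hφiφ : ∀ x ∈ ball (0:ℂ) 1, φi (φ x) = x := fun x hx => hφi.leftInvOn_invFunOn hx
  have hφic : ContinuousOn φi (φ '' ball 0 1) :=
    (open_inv isOpen_ball (convex_ball _ _).isPreconnected ⟨0, mem_ball_self one_pos⟩ hφ hφi).2
  have hbc : ball (0:ℂ) 1 ⊆ closedBall 0 1 := ball_subset_closedBall
  -- `g`, `h`
  set g : ℂ → ℂ := fun x => fi (φ x) with hgdef
  set h : ℂ → ℂ := fun x => φi (f x) with hhdef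
  have hgf : ∀ x ∈ ball (0:ℂ) 1, g x ∈ ball (0:ℂ) 1 ∧ f (g x) = φ x := by
    intro x hx
    have : φ x ∈ f '' ball 0 1 := him ▸ mem_image_of_mem φ hx
    obtain ⟨y, hy, hyx⟩ := this
    have : g x = y := by simp only [hgdef]; rw [← hyx, hfif y (hbc hy)]
    rw [this]
    exact ⟨hy, hyx⟩
  have hhf : ∀ x ∈ ball (0:ℂ) 1, h x ∈ ball (0:ℂ) 1 ∧ φ (h x) = f x := by
    intro x hx
    have : f x ∈ φ '' ball 0 1 := him ▸ mem_image_of_mem f hx
    obtain ⟨y, hy, hyx⟩ := this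
    have : h x = y := by simp only [hhdef]; rw [← hyx, hφiφ y hy]
    rw [this]
    exact ⟨hy, hyx⟩
  have hg : MapsTo g (ball 0 1) (ball 0 1) := fun x hx => (hgf x hx).1
  have hh : MapsTo h (ball 0 1) (ball 0 1) := fun x hx => (hhf x hx).1
  have hhg : ∀ x ∈ ball (0:ℂ) 1, h (g x) = x := by
    intro x hx
    simp only [hhdef]
    rw [(hgf x hx).2, hφiφ x hx]
  have hgh : ∀ x ∈ ball (0:ℂ) 1, g (h x) = x := by
    intro x hx
    simp only [hgdef]
    rw [(hhf x hx).2, hfif x (hbc hx)]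
  have hgc : ContinuousOn g (ball 0 1) := by
    apply hfic.comp hφ.continuousOn
    intro x hx
    have : φ x ∈ f '' ball 0 1 := him ▸ mem_image_of_mem φ hx
    exact image_mono hbc this
  have hhc : ContinuousOn h (ball 0 1) := by
    apply hφic.comp (hf.mono hbc)
    intro x hx
    exact him ▸ mem_image_of_mem f hx
  have hg0 : g 0 = 0 := by
    simp only [hgdef]
    rw [h0, hfif 0 (by simp)]
  -- bounded image
  obtain ⟨M, hM⟩ : ∃ M : ℝ, ∀ z ∈ ball (0:ℂ) 1, ‖φ z‖ ≤ M := by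
    obtain ⟨M, hM⟩ := (hcbc.image_of_continuousOn hf).isBounded.exists_norm_le
    refine ⟨M, fun z hz => hM _ ?_⟩
    have : φ z ∈ f '' ball 0 1 := him ▸ mem_image_of_mem φ hz
    exact image_mono hbc this
  have hfiu : UniformContinuousOn fi (f '' closedBall 0 1) :=
    (hcbc.image_of_continuousOn hf).uniformContinuousOn_of_continuous hfic
  have hsc : ∀ ζ : ℂ, ‖ζ‖ = 1 → ∀ ε > 0, ∀ ρ₀ > 0, ∃ ρ, 0 < ρ ∧ ρ < ρ₀ ∧ ∀ z ∈ ball (0:ℂ) 1,
      ∀ w ∈ ball (0:ℂ) 1, ‖z - ζ‖ = ρ → ‖w - ζ‖ = ρ → ‖g z - g w‖ ≤ ε := by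
    intro ζ hζ ε hε ρ₀ hρ₀
    obtain ⟨η, hη, hηu⟩ := Metric.uniformContinuousOn_iff.1 hfiu ε hε
    obtain ⟨ρ, hρ, hρlt, hρs⟩ := exists_short hφ hφi hM hζ (ε := η / 2) (by positivity) hρ₀
    refine ⟨ρ, hρ, hρlt, fun z hz w hw hzρ hwρ => ?_⟩
    have h1 := hρs z hz w hw hzρ hwρ
    have hzm : φ z ∈ f '' closedBall 0 1 := by
      have : φ z ∈ f '' ball 0 1 := him ▸ mem_image_of_mem φ hz
      exact image_mono hbc this
    have hwm : φ w ∈ f '' closedBall 0 1 := by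
      have : φ w ∈ f '' ball 0 1 := him ▸ mem_image_of_mem φ hw
      exact image_mono hbc this
    have h2 := hηu (φ z) hzm (φ w) hwm (by rw [dist_eq_norm]; linarith)
    rw [dist_eq_norm] at h2
    exact h2.le
  obtain ⟨G, hG, hGg, hG1⟩ := exists_extension hg hh hgc hhc hhg hgh hg0 hsc
  have hGm : MapsTo G (closedBall 0 1) (closedBall 0 1) := by
    intro x hx
    by_cases hx1 : ‖x‖ = 1
    · rw [mem_closedBall_zero_iff, hG1 x hx1]
    · have hxb : x ∈ ball (0:ℂ) 1 := by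
        rw [mem_ball_zero_iff]
        exact lt_of_le_of_ne (mem_closedBall_zero_iff.1 hx) hx1
      rw [hGg hxb]
      exact hbc (hg hxb)
  -- `f ∘ G` is continuous and equal to `φ` in the disc
  have hcl : closure (ball (0:ℂ) 1) = closedBall 0 1 := closure_ball _ one_ne_zero
  have hfG : DiffContOnCl ℂ (fun z => f (G z)) (ball 0 1) := by
    constructor
    · apply hφ.congr
      intro z hz
      rw [hGg hz, (hgf z hz).2]
    · rw [hcl]
      exact hf.comp hG hGm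
  have hGi : InjOn G (closedBall 0 1) := by
    intro x hx y hy hxy
    by_cases hx1 : ‖x‖ = 1
    · by_cases hy1 : ‖y‖ = 1
      · by_contra hne
        obtain ⟨u, hu, δ, hδ, harc⟩ := const_arc hg hh hhc hhg hgh hG hGg hG1 hx1 hy1 hne hxy
        refine no_const_arc hfG (c := f (G x)) ?_ hu hδ (fun z hz hzu => by rw [harc z hz hzu])
        intro h1
        have h2 := hfi (hGm (by simp)) (hGm hx) h1
        have h3 := hG1 x hx1
        rw [← h2, hGg (mem_ball_self one_pos), hg0, norm_zero] at h3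
        exact zero_ne_one h3
      · have hyb : y ∈ ball (0:ℂ) 1 := by
          rw [mem_ball_zero_iff]
          exact lt_of_le_of_ne (mem_closedBall_zero_iff.1 hy) hy1
        have h1 := hG1 x hx1
        rw [hxy, hGg hyb] at h1
        have h2 := mem_ball_zero_iff.1 (hg hyb)
        linarith
    · have hxb : x ∈ ball (0:ℂ) 1 := by
        rw [mem_ball_zero_iff]
        exact lt_of_le_of_ne (mem_closedBall_zero_iff.1 hx) hx1
      by_cases hy1 : ‖y‖ = 1
      · have h1 := hG1 y hy1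
        rw [← hxy, hGg hxb] at h1
        have h2 := mem_ball_zero_iff.1 (hg hxb)
        linarith
      · have hyb : y ∈ ball (0:ℂ) 1 := by
          rw [mem_ball_zero_iff]
          exact lt_of_le_of_ne (mem_closedBall_zero_iff.1 hy) hy1
        rw [hGg hxb, hGg hyb] at hxy
        rw [← hhg x hxb, ← hhg y hyb, hxy]
  -- surjectivity
  have hGs : G '' closedBall 0 1 = closedBall 0 1 := by
    apply Subset.antisymm hGm.image_subset
    have h1 : ball (0:ℂ) 1 ⊆ G '' closedBall 0 1 := by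
      intro x hx
      exact ⟨h x, hbc (hh hx), by rw [hGg (hh hx), hgh x hx]⟩
    have h2 : IsClosed (G '' closedBall 0 1) := (hcbc.image_of_continuousOn hG).isClosed
    have h3 := closure_minimal h1 h2
    rwa [hcl] at h3
  set H := Function.invFunOn G (closedBall 0 1) with hH
  have hHG : ∀ x ∈ closedBall (0:ℂ) 1, H (G x) = x := fun x hx => hGi.leftInvOn_invFunOn hx
  have hHc : ContinuousOn H (closedBall 0 1) := by
    have := cont_inv hcbc hG hGi
    rwa [hGs] at this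
  have hHmem : ∀ x ∈ closedBall (0:ℂ) 1, H x ∈ closedBall (0:ℂ) 1 ∧ G (H x) = x := by
    intro x hx
    rw [← hGs] at hx
    obtain ⟨y, hy, rfl⟩ := hx
    rw [hHG y hy]
    exact ⟨hy, rfl⟩
  have hHh : ∀ x ∈ ball (0:ℂ) 1, H x = h x := by
    intro x hx
    have : G (h x) = x := by rw [hGg (hh hx), hgh x hx]
    rw [← hHG (h x) (hbc (hh hx)), this]
  refine ⟨G, H, hG, hHc, hGm, fun x hx => (hHmem x hx).1, hHG, fun x hx => (hHmem x hx).2, hG1, ?_, ?_,
    ?_, ?_, ?_⟩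
  · intro x hx
    have hxc : x ∈ closedBall (0:ℂ) 1 := by simp [hx]
    obtain ⟨h1, h2⟩ := hHmem x hxc
    by_contra hne
    have hb : H x ∈ ball (0:ℂ) 1 := by
      rw [mem_ball_zero_iff]
      exact lt_of_le_of_ne (mem_closedBall_zero_iff.1 h1) hne
    rw [hGg hb] at h2
    have h3 := mem_ball_zero_iff.1 (hg hb)
    rw [h2, hx] at h3
    exact lt_irrefl _ h3
  · rw [hGg (mem_ball_self one_pos), hg0]
  · intro x hx
    rw [hGg hx]
    exact (hgf x hx).2
  · intro x hx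
    rw [hHh x hx]
    exact hh hx
  · intro x hx
    rw [hHh x hx]
    exact (hhf x hx).2

end Pool.Agent.Loc226
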