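import Mathlib
import Pool.Agent.Work.MP_c9b226_an.Defs

set_option autoImplicit false

open scoped ComplexConjugate

namespace Pool.Agent.Loc226

/-- the mirror image of `E` under the inversion `z ↦ 1 / conj z` in the unit circle
(for `0 ∉ E`) -/
def mirror (E : Set ℂ) : Set ℂ := {z | (conj z)⁻¹ ∈ E}

end Pool.Agent.Loc226
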