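import Mathlib

set_option autoImplicit false

open Set Metric Complex Filter Topology MeasureTheory
open scoped Interval

namespace Pool.Agent.Loc226

/-- A function continuous on a disc and holomorphic off the real line is holomorphic. -/
theorem painleve_line {f : ℂ → ℂ} {c : ℂ} {r : ℝ} (hc : ContinuousOn f (ball c r))
    (hd : ∀ z ∈ ball c r, z.im ≠ 0 → DifferentiableAt ℂ f z) :
    DifferentiableOn ℂ f (ball c r) := by
  have key : IsConservativeOn f (ball c r) := by
    intro z w hzw
    rw [← add_eq_zero_iff_eq_neg, wedgeIntegral_add_wedgeIntegral_eq]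
    have base : ∀ z w : ℂ, ([[z.re, w.re]] ×ℂ [[z.im, w.im]]) ⊆ ball c r →
        (∀ y ∈ Ioo (min z.im w.im) (max z.im w.im), y ≠ 0) →
        (∫ x : ℝ in z.re..w.re, f (x + z.im * I)) - (∫ x : ℝ in z.re..w.re, f (x + w.im * I)) +
      I • (∫ y : ℝ in z.im..w.im, f (re w + y * I)) -
      I • (∫ y : ℝ in z.im..w.im, f (re z + y * I)) = 0 := by
      intro z w hzw hy
      refine integral_boundary_rect_eq_zero_of_continuousOn_of_differentiableOn f z w (hc.mono hzw) ?_
      intro u hu
      have hu1 : u ∈ ball c r := hzw ⟨Ioo_subset_Icc_self hu.1, Ioo_subset_Icc_self hu.2⟩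
      exact (hd u hu1 (hy _ hu.2)).differentiableWithinAt
    by_cases h0 : (0 : ℝ) ∈ [[z.im, w.im]]
    · have hzw' : ([[z.re, w.re]] ×ℂ [[z.im, w.im]]) ⊆ ball c r := hzw
      have e1 := base z ⟨w.re, 0⟩ (by
        refine subset_trans ?_ hzw'
        intro u hu
        refine ⟨hu.1, ?_⟩
        exact uIcc_subset_uIcc left_mem_uIcc h0 hu.2) (by
        intro y hy
        rcases le_total z.im 0 with h | h
        · simp only [min_eq_left h, max_eq_right h] at hy
          exact hy.2.ne
        · simp only [min_eq_right h, max_eq_left h] at hy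
          exact hy.1.ne')
      have e2 := base ⟨z.re, 0⟩ w (by
        refine subset_trans ?_ hzw'
        intro u hu
        refine ⟨hu.1, ?_⟩
        exact uIcc_subset_uIcc h0 right_mem_uIcc hu.2) (by
        intro y hy
        rcases le_total w.im 0 with h | h
        · simp only [min_eq_right h, max_eq_left h] at hy
          exact hy.2.ne
        · simp only [min_eq_left h, max_eq_right h] at hy
          exact hy.1.ne')
      have hint : ∀ x : ℝ, x ∈ [[z.re, w.re]] → ∀ a b : ℝ, a ∈ [[z.im, w.im]] → b ∈ [[z.im, w.im]] →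
          IntervalIntegrable (fun y : ℝ => f (x + y * I)) volume a b := by
        intro x hx a b ha hb
        apply ContinuousOn.intervalIntegrable
        apply hc.comp (by fun_prop)
        intro y hy
        apply hzw'
        refine ⟨by simpa using hx, ?_⟩
        simpa using uIcc_subset_uIcc ha hb hy
      have s1 : (∫ y : ℝ in z.im..w.im, f (re w + y * I)) =
          (∫ y : ℝ in z.im..0, f (re w + y * I)) + ∫ y : ℝ in (0:ℝ)..w.im, f (re w + y * I) :=
        (intervalIntegral.integral_add_adjacent_intervals
          (hint _ right_mem_uIcc _ _ left_mem_uIcc h0) (hint _ right_mem_uIcc _ _ h0 right_mem_uIcc)).symm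
      have s2 : (∫ y : ℝ in z.im..w.im, f (re z + y * I)) =
          (∫ y : ℝ in z.im..0, f (re z + y * I)) + ∫ y : ℝ in (0:ℝ)..w.im, f (re z + y * I) :=
        (intervalIntegral.integral_add_adjacent_intervals
          (hint _ left_mem_uIcc _ _ left_mem_uIcc h0) (hint _ left_mem_uIcc _ _ h0 right_mem_uIcc)).symm
      rw [s1, s2]
      simp only at e1 e2
      linear_combination e1 + e2
    · apply base z w hzw
      intro y hy hy0
      exact h0 (hy0 ▸ Ioo_subset_Icc_self hy)
  exact (key.isExactOn_ball hc).differentiableOn isOpen_ball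

/-- A function continuous near a point of the unit circle and holomorphic off the unit circle is
holomorphic at this point. -/
theorem painleve_circle {f : ℂ → ℂ} {z₀ : ℂ} (hz₀ : ‖z₀‖ = 1)
    (hc : ∀ᶠ z in 𝓝 z₀, ContinuousAt f z)
    (hd : ∀ᶠ z in 𝓝 z₀, ‖z‖ ≠ 1 → DifferentiableAt ℂ f z) : DifferentiableAt ℂ f z₀ := by
  -- `e w = z₀ exp (i w)`
  set e : ℂ → ℂ := fun w => z₀ * exp (I * w) with he
  have he0 : e 0 = z₀ := by simp [he]
  have hec : Continuous e := by fun_prop
  have hz0 : z₀ ≠ 0 := by
    intro h
    simp [h] at hz₀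
  have hE : ∀ᶠ w in 𝓝 (0:ℂ), ContinuousAt f (e w) ∧ (‖e w‖ ≠ 1 → DifferentiableAt ℂ f (e w)) := by
    have : Tendsto e (𝓝 0) (𝓝 z₀) := by
      have := hec.tendsto 0
      rwa [he0] at this
    exact this.eventually (hc.and hd)
  obtain ⟨r, hr, hball⟩ := Metric.eventually_nhds_iff_ball.1 hE
  have hdiff : DifferentiableOn ℂ (fun w => f (e w)) (ball 0 r) := by
    apply painleve_line
    · intro w hw
      exact ((hball w hw).1.comp hec.continuousAt).continuousWithinAt
    · intro w hw him
      have hne : ‖e w‖ ≠ 1 := by
        simp only [he, norm_mul, hz₀, one_mul, norm_exp]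
        simp only [mul_re, I_re, zero_mul, I_im, one_mul, zero_sub]
        intro h
        have := Real.exp_eq_one_iff _ |>.1 h
        exact him (by linarith)
      have h1 := (hball w hw).2 hne
      have h2 : DifferentiableAt ℂ e w := by
        simp only [he]
        fun_prop
      exact h1.comp w h2
  have h0 : DifferentiableAt ℂ (fun w => f (e w)) 0 :=
    hdiff.differentiableAt (isOpen_ball.mem_nhds (mem_ball_self hr))
  -- local inverse
  have hloc : (fun z => f z) =ᶠ[𝓝 z₀] fun z => (fun w => f (e w)) (-I * log (z / z₀)) := by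
    filter_upwards [isOpen_ne.mem_nhds hz0] with z hz
    have : e (-I * log (z / z₀)) = z := by
      simp only [he]
      have h3 : I * (-I * log (z / z₀)) = log (z / z₀) := by
        rw [← mul_assoc]
        simp
      rw [h3, exp_log (div_ne_zero hz hz0)]
      field_simp
    show f z = f (e (-I * log (z / z₀)))
    rw [this]
  have h4 : DifferentiableAt ℂ (fun z => (fun w => f (e w)) (-I * log (z / z₀))) z₀ := by
    have h5 : DifferentiableAt ℂ (fun z => -I * log (z / z₀)) z₀ := by
      apply DifferentiableAt.const_mul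
      apply DifferentiableAt.clog
      · fun_prop
      · rw [div_self hz0]
        exact one_mem_slitPlane
    have h6 : (fun z => -I * log (z / z₀)) z₀ = 0 := by
      simp [div_self hz0]
    have h7 : DifferentiableAt ℂ (fun w => f (e w)) ((fun z => -I * log (z / z₀)) z₀) := by
      rw [h6]
      exact h0
    exact DifferentiableAt.comp (g := fun w => f (e w)) (f := fun z => -I * log (z / z₀)) z₀ h7 h5
  exact h4.congr_of_eventuallyEq hloc

end Pool.Agent.Loc226
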