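import Mathlib
import Pool.Agent.Work.MP_c9b226_loc.C

set_option autoImplicit false

open Set Metric Complex Filter Topology
open scoped ComplexConjugate

namespace Pool.Agent.Loc226

/-- Möbius maps of the disc -/
noncomputable def mob (a w : ℂ) : ℂ := (w - a) / (1 - conj a * w)

theorem mob_den {a w : ℂ} (ha : ‖a‖ < 1) (hw : ‖w‖ < 1) : 1 - conj a * w ≠ 0 := by
  intro h
  have h1 : conj a * w = 1 := by linear_combination -h
  have h2 : ‖conj a * w‖ = 1 := by rw [h1, norm_one]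
  rw [norm_mul, Complex.norm_conj] at h2
  have := norm_nonneg a
  have := norm_nonneg w
  nlinarith

theorem norm_lt_one_iff {a : ℂ} : ‖a‖ < 1 ↔ normSq a < 1 := by
  rw [Complex.normSq_eq_norm_sq]
  have := norm_nonneg a
  constructor
  · intro h
    nlinarith
  · intro h
    by_contra hcon
    push Not at hcon
    nlinarith

theorem norm_mob {a w : ℂ} (ha : ‖a‖ < 1) (hw : ‖w‖ < 1) : ‖mob a w‖ < 1 := by
  have hden := mob_den ha hw
  rw [mob, norm_div, div_lt_one (norm_pos_iff.2 hden)]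
  have h1 : normSq (1 - conj a * w) - normSq (w - a) = (1 - normSq a) * (1 - normSq w) := by
    simp only [normSq_apply, sub_re, sub_im, mul_re, mul_im, conj_re, conj_im, one_re, one_im]
    ring
  have h2 : 0 < (1 - normSq a) * (1 - normSq w) :=
    mul_pos (by linarith [norm_lt_one_iff.1 ha]) (by linarith [norm_lt_one_iff.1 hw])
  rw [normSq_eq_norm_sq (1 - conj a * w), normSq_eq_norm_sq (w - a)] at h1
  have h3 := norm_nonneg (w - a)
  have h4 := norm_nonneg (1 - conj a * w)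
  by_contra hcon
  push Not at hcon
  nlinarith

theorem mob_inv {a w : ℂ} (ha : ‖a‖ < 1) (hw : ‖w‖ < 1) : mob (-a) (mob a w) = w := by
  have hden := mob_den ha hw
  have hden2 := mob_den ha ha
  unfold mob
  have e : 1 - conj (-a) * ((w - a) / (1 - conj a * w)) = (1 - conj a * a) / (1 - conj a * w) := by
    rw [map_neg]
    field_simp
    ring
  rw [e, sub_neg_eq_add, div_add' _ _ _ hden, div_div_div_cancel_right₀ hden, div_eq_iff hden2]
  ring

theorem mob_hasDerivAt {a w : ℂ} (ha : ‖a‖ < 1) (hw : ‖w‖ < 1) :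
    HasDerivAt (mob a) ((1 - conj a * a) / (1 - conj a * w) ^ 2) w := by
  have hden := mob_den ha hw
  have h1 : HasDerivAt (fun w : ℂ => w - a) 1 w := (hasDerivAt_id w).sub_const a
  have h2 : HasDerivAt (fun w : ℂ => 1 - conj a * w) (-(conj a * 1)) w :=
    ((hasDerivAt_id w).const_mul (conj a)).const_sub 1
  have h3 := h1.div h2 hden
  have e : (1 - conj a * a) / (1 - conj a * w) ^ 2 =
      (1 * (1 - conj a * w) - (w - a) * -(conj a * 1)) / (1 - conj a * w) ^ 2 := by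
    congr 1
    ring
  rw [e]
  exact h3

theorem mob_self (a : ℂ) : mob a a = 0 := by simp [mob]

theorem mob_zero (a : ℂ) : mob a 0 = -a := by simp [mob]

/-- the family of the proof of the Riemann mapping theorem -/
structure Fam (U : Set ℂ) (z₀ : ℂ) (f : ℂ → ℂ) : Prop where
  d : DifferentiableOn ℂ f U
  m : MapsTo f U (ball 0 1)
  i : InjOn f U
  z : f z₀ = 0

theorem fam_mob {U : Set ℂ} (hU : IsOpen U) {z₀ : ℂ} (hz₀ : z₀ ∈ U) {f : ℂ → ℂ}
    (hd : DifferentiableOn ℂ f U) (hm : MapsTo f U (ball 0 1)) (hi : InjOn f U) :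
    Fam U z₀ (fun z => mob (f z₀) (f z)) ∧
      deriv (fun z => mob (f z₀) (f z)) z₀ = deriv f z₀ / (1 - conj (f z₀) * f z₀) := by
  have ha : ‖f z₀‖ < 1 := mem_ball_zero_iff.1 (hm hz₀)
  have hder : ∀ z ∈ U, HasDerivAt (fun z => mob (f z₀) (f z))
      ((1 - conj (f z₀) * f z₀) / (1 - conj (f z₀) * f z) ^ 2 * deriv f z) z := by
    intro z hz
    exact (mob_hasDerivAt ha (mem_ball_zero_iff.1 (hm hz))).comp z
      (hd.differentiableAt (hU.mem_nhds hz)).hasDerivAt
  refine ⟨⟨?_, ?_, ?_, ?_⟩, ?_⟩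
  · exact fun z hz => (hder z hz).differentiableAt.differentiableWithinAt
  · intro z hz
    rw [mem_ball_zero_iff]
    exact norm_mob ha (mem_ball_zero_iff.1 (hm hz))
  · intro z hz w hw h
    apply hi hz hw
    simp only at h
    rw [← mob_inv ha (mem_ball_zero_iff.1 (hm hz)), h, mob_inv ha (mem_ball_zero_iff.1 (hm hw))]
  · exact mob_self _
  · rw [(hder z₀ hz₀).deriv]
    have := mob_den ha ha
    field_simp

/-- the improvement step -/
theorem fam_improve {U : Set ℂ} (hU : IsOpen U) (hUc : IsSimplyConnected U) {z₀ : ℂ} (hz₀ : z₀ ∈ U)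
    {f : ℂ → ℂ} (hf : Fam U z₀ f) (hf' : deriv f z₀ ≠ 0) {a : ℂ} (ha : ‖a‖ < 1)
    (haU : a ∉ f '' U) : ∃ F, Fam U z₀ F ∧ ‖deriv f z₀‖ < ‖deriv F z₀‖ := by
  have ha0 : a ≠ 0 := by
    rintro rfl
    exact haU ⟨z₀, hz₀, hf.z⟩
  have hfb : ∀ z ∈ U, ‖f z‖ < 1 := fun z hz => mem_ball_zero_iff.1 (hf.m hz)
  set f₁ : ℂ → ℂ := fun z => mob a (f z) with hf₁
  have hf₁d : ∀ z ∈ U, HasDerivAt f₁ ((1 - conj a * a) / (1 - conj a * f z) ^ 2 * deriv f z) z :=
    fun z hz => (mob_hasDerivAt ha (hfb z hz)).comp z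
      (hf.d.differentiableAt (hU.mem_nhds hz)).hasDerivAt
  have hf₁c : ContinuousOn f₁ U := fun z hz => (hf₁d z hz).continuousAt.continuousWithinAt
  have hf₁0 : ∀ z ∈ U, f₁ z ≠ 0 := by
    intro z hz h
    simp only [hf₁, mob] at h
    rw [div_eq_zero_iff] at h
    rcases h with h | h
    · exact haU ⟨z, hz, sub_eq_zero.1 h⟩
    · exact mob_den ha (hfb z hz) h
  have hf₁n : ∀ z ∈ U, ‖f₁ z‖ < 1 := fun z hz => norm_mob ha (hfb z hz)
  have hf₁i : InjOn f₁ U := by
    intro z hz w hw h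
    apply hf.i hz hw
    simp only [hf₁] at h
    rw [← mob_inv ha (hfb z hz), h, mob_inv ha (hfb w hw)]
  obtain ⟨g, hgc, hg2⟩ := exists_continuousOn_pow_eq hUc hU hf₁c (by
    rintro ⟨z, hz, hz0⟩
    exact hf₁0 z hz hz0) two_ne_zero
  have hg0 : ∀ z ∈ U, g z ≠ 0 := by
    intro z hz h
    apply hf₁0 z hz
    rw [← hg2 z, h]
    simp
  have hgd : ∀ z ∈ U, HasDerivAt g (deriv f₁ z / (2 * g z)) z := by
    intro z hz
    -- `g` is a local branch of the square root composed with `f₁`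
    have h1 : HasStrictDerivAt (fun w : ℂ => w ^ 2) (2 * g z) (g z) := by
      simpa using hasStrictDerivAt_pow 2 (g z)
    have h2 : (2 * g z) ≠ 0 := mul_ne_zero two_ne_zero (hg0 z hz)
    have h3 : HasDerivAt (fun x => (g x) ^ 2) (deriv f₁ z) z := by
      have e : (fun x => (g x) ^ 2) = f₁ := funext hg2
      rw [e]
      exact (hf₁d z hz).differentiableAt.hasDerivAt
    -- local inverse of squaring
    set L := h1.localInverse (fun w : ℂ => w ^ 2) (2 * g z) (g z) h2 with hL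
    have h4 : ∀ᶠ x in 𝓝 z, L ((g x) ^ 2) = g x := by
      have h5 : ∀ᶠ w in 𝓝 (g z), L (w ^ 2) = w :=
        (h1.hasStrictFDerivAt_equiv h2).eventually_left_inverse
      exact (hgc.continuousAt (hU.mem_nhds hz)).eventually h5
    have h6 : HasStrictDerivAt L (2 * g z)⁻¹ ((g z) ^ 2) := h1.to_localInverse h2
    have h7 : HasDerivAt (fun x => L ((g x) ^ 2)) ((2 * g z)⁻¹ * deriv f₁ z) z :=
      HasDerivAt.comp z (h₂ := L) (h := fun x => (g x) ^ 2) h6.hasDerivAt h3
    have h8 : HasDerivAt g ((2 * g z)⁻¹ * deriv f₁ z) z := by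
      apply h7.congr_of_eventuallyEq
      filter_upwards [h4] with x hx
      exact hx.symm
    rw [div_eq_inv_mul]
    exact h8
  have hgn : ∀ z ∈ U, ‖g z‖ < 1 := by
    intro z hz
    have h1 := hf₁n z hz
    rw [← hg2 z, norm_pow] at h1
    have := norm_nonneg (g z)
    nlinarith
  have hgi : InjOn g U := by
    intro z hz w hw h
    apply hf₁i hz hw
    rw [← hg2 z, ← hg2 w, h]
  obtain ⟨hF, hF'⟩ := fam_mob hU hz₀ (fun z hz => (hgd z hz).differentiableAt.differentiableWithinAt)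
    (fun z hz => mem_ball_zero_iff.2 (hgn z hz)) hgi
  refine ⟨_, hF, ?_⟩
  rw [hF', (hgd z₀ hz₀).deriv, (hf₁d z₀ hz₀).deriv, hf.z]
  set b := g z₀ with hb
  have hb0 : b ≠ 0 := hg0 z₀ hz₀
  have hbn : ‖b‖ < 1 := hgn z₀ hz₀
  have hb2 : b ^ 2 = -a := by
    rw [hb, hg2 z₀]
    simp only [hf₁, hf.z, mob_zero]
  have hab : conj a * a = (conj b * b) ^ 2 := by
    have : a = - b ^ 2 := by rw [hb2]; ring
    rw [this, map_neg, map_pow]
    ring
  have hcb : conj b * b = ((‖b‖ ^ 2 : ℝ) : ℂ) := by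
    rw [mul_comm, Complex.mul_conj, Complex.normSq_eq_norm_sq]
  have hbpos : 0 < ‖b‖ := norm_pos_iff.2 hb0
  have hden : (1 - conj b * b) ≠ 0 := mob_den hbn hbn
  have e : (1 - conj a * a) / (1 - conj a * 0) ^ 2 * deriv f z₀ / (2 * b) / (1 - conj b * b) =
      deriv f z₀ * ((1 + conj b * b) / (2 * b)) := by
    rw [hab]
    simp only [mul_zero, sub_zero, one_pow, div_one]
    field_simp
    ring
  rw [e, norm_mul, norm_div, hcb]
  have e2 : ‖(1 : ℂ) + ((‖b‖ ^ 2 : ℝ) : ℂ)‖ = 1 + ‖b‖ ^ 2 := by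
    rw [← Complex.ofReal_one, ← Complex.ofReal_add, Complex.norm_real, Real.norm_of_nonneg]
    positivity
  rw [e2, norm_mul, Complex.norm_two]
  have h1 : 0 < ‖deriv f z₀‖ := norm_pos_iff.2 hf'
  have h2 : 1 < (1 + ‖b‖ ^ 2) / (2 * ‖b‖) := by
    rw [lt_div_iff₀ (by positivity)]
    nlinarith [sq_nonneg (1 - ‖b‖), mul_self_pos.2 (sub_ne_zero.2 hbn.ne)]
  nlinarith

end Pool.Agent.Loc226
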