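import Mathlib
import Pool.Agent.Work.MP_c9b226_loc.R
import Pool.Agent.Work.MP_c9b226_loc.R0

set_option autoImplicit false

open Set Metric Complex Filter Topology
open scoped ComplexConjugate

namespace Pool.Agent.Loc226

theorem equi {U : Set ℂ} {F : ℂ → ℂ} (hd : DifferentiableOn ℂ F U) (hm : MapsTo F U (ball 0 1))
    {w : ℂ} {r : ℝ} (hb : ball w r ⊆ U) {z : ℂ} (hz : z ∈ ball w r) :
    ‖F z - F w‖ ≤ 2 / r * ‖z - w‖ := by
  rw [← dist_eq_norm, ← dist_eq_norm]
  have hr : 0 < r := nonempty_ball.1 ⟨z, hz⟩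
  apply dist_le_div_mul_dist_of_mapsTo_ball (hd.mono hb) _ hz
  intro x hx
  have h1 := mem_ball_zero_iff.1 (hm (hb hx))
  have h2 := mem_ball_zero_iff.1 (hm (hb (mem_ball_self hr)))
  rw [mem_closedBall, dist_eq_norm]
  calc ‖F x - F w‖ ≤ ‖F x‖ + ‖F w‖ := norm_sub_le _ _
    _ ≤ 2 := by linarith

/-- Montel, along an ultrafilter -/
theorem exists_limit {U : Set ℂ} (hU : IsOpen U) {F : ℕ → ℂ → ℂ}
    (hd : ∀ n, DifferentiableOn ℂ (F n) U) (hm : ∀ n, MapsTo (F n) U (ball 0 1)) :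
    ∃ (p : Filter ℕ) (f : ℂ → ℂ), p.NeBot ∧ p ≤ atTop ∧ TendstoLocallyUniformlyOn F f p U ∧
      MapsTo f U (closedBall 0 1) := by
  set 𝒰 : Ultrafilter ℕ := hyperfilter ℕ with h𝒰
  have hle : (𝒰 : Filter ℕ) ≤ atTop := by
    rw [← Nat.cofinite_eq_atTop]
    exact hyperfilter_le_cofinite
  have hpt : ∀ z ∈ U, ∃ y ∈ closedBall (0:ℂ) 1, Tendsto (fun n => F n z) 𝒰 (𝓝 y) := by
    intro z hz
    obtain ⟨y, hy, hy2⟩ := (isCompact_closedBall (0:ℂ) 1).ultrafilter_le_nhds
      (𝒰.map (fun n => F n z)) (by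
        rw [le_principal_iff, Ultrafilter.mem_coe, Ultrafilter.mem_map]
        exact Filter.univ_mem' (fun n => ball_subset_closedBall (hm n hz)))
    exact ⟨y, hy, hy2⟩
  choose! f hf1 hf2 using hpt
  refine ⟨𝒰, f, inferInstance, hle, ?_, fun z hz => hf1 z hz⟩
  rw [Metric.tendstoLocallyUniformlyOn_iff]
  intro ε hε x hx
  obtain ⟨r, hr, hrU⟩ := Metric.isOpen_iff.1 hU x hx
  set δ := min r (ε * r / 16) with hδ
  have hδ0 : 0 < δ := by positivity
  have hδr : δ ≤ r := min_le_left _ _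
  have hδε : δ ≤ ε * r / 16 := min_le_right _ _
  have hFn : ∀ n, ∀ y ∈ ball x δ, ‖F n y - F n x‖ ≤ ε / 4 := by
    intro n y hy
    have h1 := equi (hd n) (hm n) hrU (ball_subset_ball hδr hy)
    rw [mem_ball, dist_eq_norm] at hy
    calc ‖F n y - F n x‖ ≤ 2 / r * ‖y - x‖ := h1
      _ ≤ 2 / r * (ε * r / 16) := by gcongr; linarith
      _ ≤ ε / 4 := by
        have : 2 / r * (ε * r / 16) = ε / 8 := by field_simp; ring
        linarith
  have hfn : ∀ y ∈ ball x δ, ‖f y - f x‖ ≤ ε / 4 := by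
    intro y hy
    have hyU : y ∈ U := hrU (ball_subset_ball hδr hy)
    have h1 : Tendsto (fun n => ‖F n y - F n x‖) 𝒰 (𝓝 ‖f y - f x‖) :=
      ((hf2 y hyU).sub (hf2 x hx)).norm
    exact le_of_tendsto h1 (Eventually.of_forall (fun n => hFn n y hy))
  refine ⟨ball x δ, mem_nhdsWithin_of_mem_nhds (ball_mem_nhds x hδ0), ?_⟩
  have h1 : ∀ᶠ n in (𝒰 : Filter ℕ), ‖F n x - f x‖ < ε / 4 := by
    have := (hf2 x hx)
    rw [Metric.tendsto_nhds] at this
    simpa [dist_eq_norm] using this (ε / 4) (by positivity)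
  filter_upwards [h1] with n hn y hy
  rw [dist_eq_norm]
  have e : f y - F n y = (f y - f x) - (F n x - f x) - (F n y - F n x) := by ring
  rw [e]
  calc ‖(f y - f x) - (F n x - f x) - (F n y - F n x)‖
      ≤ ‖(f y - f x) - (F n x - f x)‖ + ‖F n y - F n x‖ := norm_sub_le _ _
    _ ≤ ‖f y - f x‖ + ‖F n x - f x‖ + ‖F n y - F n x‖ := by
        gcongr; exact norm_sub_le _ _
    _ < ε := by linarith [hFn n y hy, hfn y hy]

/-- Hurwitz -/
theorem hurwitz_inj {U : Set ℂ} (hU : IsOpen U) (hUc : IsPreconnected U) {F : ℕ → ℂ → ℂ}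
    {f : ℂ → ℂ} {p : Filter ℕ} [p.NeBot] (hlim : TendstoLocallyUniformlyOn F f p U)
    (hd : ∀ n, DifferentiableOn ℂ (F n) U) (hi : ∀ n, InjOn (F n) U)
    {z₀ : ℂ} (hz₀ : z₀ ∈ U) (hne : deriv f z₀ ≠ 0) : InjOn f U := by
  have hf : DifferentiableOn ℂ f U := hlim.differentiableOn (Eventually.of_forall hd) hU
  intro z₁ hz₁ z₂ hz₂ h12
  by_contra hz12
  have hfa : AnalyticOnNhd ℂ f U := hf.analyticOnNhd hU
  have hga : AnalyticAt ℂ (fun z => f z - f z₁) z₂ := (hfa z₂ hz₂).sub analyticAt_const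
  rcases hga.eventually_eq_zero_or_eventually_ne_zero with h0 | h0
  · -- constant
    have h1 : EqOn f (fun _ => f z₁) U := by
      apply hfa.eqOn_of_preconnected_of_eventuallyEq analyticOnNhd_const hUc hz₂
      filter_upwards [h0] with z hz
      exact sub_eq_zero.1 hz
    apply hne
    have h2 : f =ᶠ[𝓝 z₀] fun _ => f z₁ := by
      filter_upwards [hU.mem_nhds hz₀] with z hz
      exact h1 hz
    rw [h2.deriv_eq]
    simp
  · have h1 : ∀ᶠ z in 𝓝 z₂, z ≠ z₂ → f z - f z₁ ≠ 0 := by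
      rwa [eventually_nhdsWithin_iff] at h0
    have h2 : ∀ᶠ z in 𝓝 z₂, z ∈ U ∧ z ≠ z₁ ∧ (z ≠ z₂ → f z - f z₁ ≠ 0) :=
      (show ∀ᶠ z in 𝓝 z₂, z ∈ U from hU.mem_nhds hz₂).and
        ((show ∀ᶠ z in 𝓝 z₂, z ≠ z₁ from isOpen_ne.mem_nhds (Ne.symm hz12)).and h1)
    obtain ⟨r, hr, hball⟩ := Metric.nhds_basis_closedBall.eventually_iff.1 h2
    have hcb : closedBall z₂ r ⊆ U := fun z hz => (hball hz).1
    have hsn : (sphere z₂ r).Nonempty := NormedSpace.sphere_nonempty.2 hr.le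
    obtain ⟨x₀, hx₀, hmin⟩ := (isCompact_sphere z₂ r).exists_isMinOn hsn
      (((hf.continuousOn.mono (sphere_subset_closedBall.trans hcb)).sub continuousOn_const).norm :
        ContinuousOn (fun z => ‖f z - f z₁‖) _)
    set m := ‖f x₀ - f z₁‖ with hm
    have hm0 : 0 < m := by
      apply norm_pos_iff.2
      apply (hball (sphere_subset_closedBall hx₀)).2.2
      rintro rfl
      rw [mem_sphere, dist_self] at hx₀
      exact hr.ne hx₀
    have hunif : ∀ᶠ n in p, ∀ z ∈ closedBall z₂ r, dist (f z) (F n z) < m / 4 := by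
      have h3 := (tendstoLocallyUniformlyOn_iff_forall_isCompact hU).1 hlim _ hcb
        (isCompact_closedBall z₂ r)
      rw [Metric.tendstoUniformlyOn_iff] at h3
      exact h3 (m / 4) (by positivity)
    have hunif1 : ∀ᶠ n in p, dist (f z₁) (F n z₁) < m / 4 := by
      have h3 := (tendstoLocallyUniformlyOn_iff_forall_isCompact hU).1 hlim {z₁}
        (singleton_subset_iff.2 hz₁) isCompact_singleton
      rw [Metric.tendstoUniformlyOn_iff] at h3
      exact (h3 (m / 4) (by positivity)).mono (fun n hn => hn z₁ rfl)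
    obtain ⟨n, hn, hn1⟩ := (hunif.and hunif1).exists
    set G : ℂ → ℂ := fun z => F n z - F n z₁ with hG
    have hGd : DifferentiableOn ℂ G U := (hd n).sub_const _
    have hGne : ∀ z ∈ closedBall z₂ r, G z ≠ 0 := by
      intro z hz h
      have h4 : z ≠ z₁ := (hball hz).2.1
      exact h4 (hi n (hcb hz) hz₁ (sub_eq_zero.1 h))
    have hclose : ∀ z ∈ closedBall z₂ r, ‖(f z - f z₁) - G z‖ < m / 2 := by
      intro z hz
      have e : (f z - f z₁) - G z = (f z - F n z) - (f z₁ - F n z₁) := by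
        simp only [hG]; ring
      rw [e]
      have h5 := hn z hz
      rw [dist_eq_norm] at h5 hn1
      calc ‖(f z - F n z) - (f z₁ - F n z₁)‖ ≤ ‖f z - F n z‖ + ‖f z₁ - F n z₁‖ := norm_sub_le _ _
        _ < m / 2 := by linarith
    have hcl : closure (ball z₂ r) = closedBall z₂ r := closure_ball _ hr.ne'
    have hdc : DiffContOnCl ℂ (fun z => (G z)⁻¹) (ball z₂ r) := by
      have h6 : DiffContOnCl ℂ G (ball z₂ r) := by
        refine ⟨hGd.mono (ball_subset_closedBall.trans hcb), ?_⟩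
        rw [hcl]
        exact hGd.continuousOn.mono hcb
      apply h6.inv
      intro z hz
      rw [hcl] at hz
      exact hGne z hz
    have hle : ‖(G z₂)⁻¹‖ ≤ (m / 2)⁻¹ := by
      apply Complex.norm_le_of_forall_mem_frontier_norm_le isBounded_ball hdc
      · intro z hz
        rw [frontier_ball _ hr.ne'] at hz
        have hzc : z ∈ closedBall z₂ r := sphere_subset_closedBall hz
        have h7 : m ≤ ‖f z - f z₁‖ := hmin hz
        have h8 := hclose z hzc
        have h9 : ‖f z - f z₁‖ - ‖G z‖ ≤ ‖(f z - f z₁) - G z‖ := norm_sub_norm_le _ _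
        simp only [norm_inv]
        exact inv_anti₀ (by positivity) (by linarith)
      · rw [hcl]
        exact mem_closedBall_self hr.le
    have h10 := hclose z₂ (mem_closedBall_self hr.le)
    rw [h12, sub_self, zero_sub, norm_neg] at h10
    have h11 : 0 < ‖G z₂‖ := norm_pos_iff.2 (hGne z₂ (mem_closedBall_self hr.le))
    rw [norm_inv] at hle
    have h12 : m / 2 ≤ ‖G z₂‖ := (inv_le_inv₀ h11 (by positivity)).1 hle
    linarith

/-- **Riemann mapping theorem** -/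
theorem riemann_mapping {U : Set ℂ} (hU : IsOpen U) (hUc : IsSimplyConnected U) (hUne : U ≠ univ)
    {z₀ : ℂ} (hz₀ : z₀ ∈ U) : ∃ ψ : ℂ → ℂ, Fam U z₀ ψ ∧ ψ '' U = ball 0 1 := by
  have hUp : IsPreconnected U := hUc.isPathConnected.isConnected.isPreconnected
  obtain ⟨r, hr, hrU⟩ := Metric.isOpen_iff.1 hU z₀ hz₀
  -- the set of derivatives
  set S : Set ℝ := {t | ∃ f, Fam U z₀ f ∧ ‖deriv f z₀‖ = t} with hS
  have hSb : ∀ t ∈ S, t ≤ 1 / r := by
    rintro t ⟨f, hf, rfl⟩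
    apply norm_deriv_le_div_of_mapsTo_ball (hf.d.mono hrU) _ hr
    intro z hz
    rw [hf.z]
    exact ball_subset_closedBall (hf.m (hrU hz))
  have hSba : BddAbove S := ⟨1 / r, hSb⟩
  obtain ⟨f₀, hf₀m, hf₀i, hf₀d⟩ := rm_step2 hU hUc hUne
  have hf₀diff : DifferentiableOn ℂ f₀ U := fun z hz =>
    (differentiableAt_of_deriv_ne_zero (hf₀d z hz)).differentiableWithinAt
  obtain ⟨hF₀, hF₀'⟩ := fam_mob hU hz₀ hf₀diff hf₀m hf₀i
  have hpos : ∃ t ∈ S, 0 < t := by
    refine ⟨_, ⟨_, hF₀, rfl⟩, ?_⟩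
    rw [hF₀']
    have ha : ‖f₀ z₀‖ < 1 := mem_ball_zero_iff.1 (hf₀m hz₀)
    exact norm_pos_iff.2 (div_ne_zero (hf₀d z₀ hz₀) (mob_den ha ha))
  obtain ⟨t₀, ht₀, ht₀pos⟩ := hpos
  set s := sSup S with hs
  have hs0 : 0 < s := lt_of_lt_of_le ht₀pos (le_csSup hSba ht₀)
  have hseq : ∀ n : ℕ, ∃ f, Fam U z₀ f ∧ s - 1 / ((n : ℝ) + 1) < ‖deriv f z₀‖ := by
    intro n
    obtain ⟨t, ⟨f, hf, rfl⟩, ht⟩ := exists_lt_of_lt_csSup ⟨t₀, ht₀⟩
      (show s - 1 / ((n : ℝ) + 1) < s by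
        have : 0 < 1 / ((n : ℝ) + 1) := by positivity
        linarith)
    exact ⟨f, hf, ht⟩
  choose F hF hFs using hseq
  obtain ⟨p, f, hp, hpt, hlim, hfm⟩ := exists_limit hU (fun n => (hF n).d) (fun n => (hF n).m)
  have hfd : DifferentiableOn ℂ f U := hlim.differentiableOn (Eventually.of_forall (fun n => (hF n).d)) hU
  have hder := (hlim.deriv (Eventually.of_forall (fun n => (hF n).d)) hU).tendsto_at hz₀
  have hnorm : Tendsto (fun n => ‖deriv (F n) z₀‖) p (𝓝 ‖deriv f z₀‖) := hder.norm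
  have hs1 : s ≤ ‖deriv f z₀‖ := by
    have h1 : Tendsto (fun n : ℕ => s - 1 / ((n : ℝ) + 1)) p (𝓝 s) := by
      have := (tendsto_const_nhds (x := s)).sub (tendsto_one_div_add_atTop_nhds_zero_nat (𝕜 := ℝ))
      rw [sub_zero] at this
      exact this.mono_left hpt
    exact le_of_tendsto_of_tendsto h1 hnorm (Eventually.of_forall (fun n => (hFs n).le))
  have hne : deriv f z₀ ≠ 0 := by
    rw [← norm_pos_iff]
    linarith
  have hfi : InjOn f U := hurwitz_inj hU hUp hlim (fun n => (hF n).d) (fun n => (hF n).i) hz₀ hne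
  have hopen := (open_inv hU hUp ⟨z₀, hz₀⟩ hfd hfi).1
  have hfm' : MapsTo f U (ball 0 1) := by
    intro z hz
    have h1 : f '' U ⊆ interior (closedBall (0:ℂ) 1) :=
      interior_maximal hfm.image_subset (hopen U Subset.rfl hU)
    rw [interior_closedBall _ one_ne_zero] at h1
    exact h1 ⟨z, hz, rfl⟩
  have hfz : f z₀ = 0 := by
    have h1 := hlim.tendsto_at hz₀
    have h2 : Tendsto (fun n => F n z₀) p (𝓝 0) := by
      have : (fun n => F n z₀) = fun _ => 0 := funext (fun n => (hF n).z)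
      rw [this]
      exact tendsto_const_nhds
    exact tendsto_nhds_unique h1 h2
  have hfam : Fam U z₀ f := ⟨hfd, hfm', hfi, hfz⟩
  refine ⟨f, hfam, Subset.antisymm hfm'.image_subset ?_⟩
  intro a ha
  by_contra haU
  obtain ⟨G, hG, hG'⟩ := fam_improve hU hUc hz₀ hfam hne (mem_ball_zero_iff.1 ha) haU
  have := le_csSup hSba (⟨G, hG, rfl⟩ : ‖deriv G z₀‖ ∈ S)
  linarith

/-- the inverse of an injective holomorphic map is holomorphic -/
theorem inv_holo {U : Set ℂ} (hU : IsOpen U) (hUc : IsPreconnected U) (hUn : U.Nonempty)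
    {ψ : ℂ → ℂ} (hd : DifferentiableOn ℂ ψ U) (hi : InjOn ψ U) :
    DifferentiableOn ℂ (Function.invFunOn ψ U) (ψ '' U) := by
  obtain ⟨hopen, hcont⟩ := open_inv hU hUc hUn hd hi
  have hVo : IsOpen (ψ '' U) := hopen U Subset.rfl hU
  set φ := Function.invFunOn ψ U with hφ
  have hφψ : ∀ x ∈ U, φ (ψ x) = x := fun x hx => hi.leftInvOn_invFunOn hx
  have hψφ : ∀ y ∈ ψ '' U, φ y ∈ U ∧ ψ (φ y) = y := by
    rintro _ ⟨x, hx, rfl⟩
    rw [hφψ x hx]
    exact ⟨hx, rfl⟩
  -- differentiability where `ψ' ≠ 0`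
  have hgood : ∀ y ∈ ψ '' U, deriv ψ (φ y) ≠ 0 → DifferentiableAt ℂ φ y := by
    intro y hy hne
    obtain ⟨h1, h2⟩ := hψφ y hy
    have h3 : HasDerivAt ψ (deriv ψ (φ y)) (φ y) :=
      (hd.differentiableAt (hU.mem_nhds h1)).hasDerivAt
    have h4 := HasDerivAt.of_local_left_inverse (hcont.continuousAt (hVo.mem_nhds hy)) h3 hne (by
      filter_upwards [hVo.mem_nhds hy] with w hw
      exact (hψφ w hw).2)
    exact h4.differentiableAt
  have hder : AnalyticOnNhd ℂ (deriv ψ) U := (hd.analyticOnNhd hU).deriv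
  intro y hy
  apply DifferentiableAt.differentiableWithinAt
  obtain ⟨h1, h2⟩ := hψφ y hy
  have hφc : ContinuousAt φ y := hcont.continuousAt (hVo.mem_nhds hy)
  refine (analyticAt_of_differentiable_on_punctured_nhds_of_continuousAt ?_ hφc).differentiableAt
  rcases (hder (φ y) h1).eventually_eq_zero_or_eventually_ne_zero with h0 | h0
  · -- `ψ` would be constant near `φ y`
    exfalso
    obtain ⟨r, hr, hrb⟩ := Metric.eventually_nhds_iff_ball.1 (h0.and (hU.mem_nhds h1))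
    have hconst : ∀ x ∈ ball (φ y) r, ψ x = ψ (φ y) := by
      intro x hx
      apply (convex_ball (φ y) r).is_const_of_fderivWithin_eq_zero (𝕜 := ℂ)
        (hd.mono (fun z hz => (hrb z hz).2)) _ hx (mem_ball_self hr)
      intro z hz
      rw [fderivWithin_of_isOpen isOpen_ball hz]
      ext
      simp [(hrb z hz).1]
    have h5 : φ y + ((r / 2 : ℝ) : ℂ) ∈ ball (φ y) r := by
      rw [mem_ball, dist_eq_norm, add_sub_cancel_left, Complex.norm_real,
        Real.norm_of_nonneg (by linarith)]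
      linarith
    have h6 := hi (hrb _ h5).2 h1 (hconst _ h5)
    have h7 : ((r / 2 : ℝ) : ℂ) = 0 := by linear_combination h6
    rw [Complex.ofReal_eq_zero] at h7
    linarith
  · rw [eventually_nhdsWithin_iff] at h0 ⊢
    have h3 := hφc.eventually h0
    filter_upwards [h3, hVo.mem_nhds hy] with w hw hwV hwy
    apply hgood w hwV
    apply hw
    intro h
    apply hwy
    rw [mem_singleton_iff] at h ⊢
    rw [← (hψφ w hwV).2, h, h2]

end Pool.Agent.Loc226
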