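import Mathlib
import Pool.Agent.Work.MP_c9b226_loc.P
import Pool.Agent.Work.MP_c9b226_loc.R2
import Pool.Agent.Work.MP_c9b226_loc.Defs

set_option autoImplicit false

open Set Metric Complex Filter Topology
open scoped ComplexConjugate
open Pool.Agent.Work.MP_c9b226_an (CHRemovable)

namespace Pool.Agent.Loc226

/-- homeomorphisms of the closed disc fixing `0` -/
structure DH (G H : ℂ → ℂ) : Prop where
  Gc : ContinuousOn G (closedBall 0 1)
  Hc : ContinuousOn H (closedBall 0 1)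
  Gm : MapsTo G (closedBall 0 1) (closedBall 0 1)
  Hm : MapsTo H (closedBall 0 1) (closedBall 0 1)
  HG : ∀ x ∈ closedBall (0:ℂ) 1, H (G x) = x
  GH : ∀ x ∈ closedBall (0:ℂ) 1, G (H x) = x
  G1 : ∀ x : ℂ, ‖x‖ = 1 → ‖G x‖ = 1
  H1 : ∀ x : ℂ, ‖x‖ = 1 → ‖H x‖ = 1
  G0 : G 0 = 0

theorem DH.H0 {G H : ℂ → ℂ} (h : DH G H) : H 0 = 0 := by
  have := h.HG 0 (by simp)
  rwa [h.G0] at this

theorem DH.symm {G H : ℂ → ℂ} (h : DH G H) : DH H G :=
  ⟨h.Hc, h.Gc, h.Hm, h.Gm, h.GH, h.HG, h.H1, h.G1, h.H0⟩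

theorem DH.lt {G H : ℂ → ℂ} (h : DH G H) {x : ℂ} (hx : ‖x‖ < 1) : ‖H x‖ < 1 := by
  have hxc : x ∈ closedBall (0:ℂ) 1 := mem_closedBall_zero_iff.2 hx.le
  have h1 := mem_closedBall_zero_iff.1 (h.Hm hxc)
  apply lt_of_le_of_ne h1
  intro h2
  have h3 := h.G1 _ h2
  rw [h.GH x hxc] at h3
  linarith

theorem DH.ne {G H : ℂ → ℂ} (h : DH G H) {x : ℂ} (hx : ‖x‖ ≤ 1) (hx0 : x ≠ 0) : H x ≠ 0 := by
  intro h1
  apply hx0
  rw [← h.GH x (mem_closedBall_zero_iff.2 hx), h1, h.G0]

/-- the double of a map of the disc -/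
noncomputable def dbl (H : ℂ → ℂ) (w : ℂ) : ℂ :=
  if ‖w‖ ≤ 1 then H w else (conj (H (conj w)⁻¹))⁻¹

theorem norm_inv_conj (w : ℂ) : ‖(conj w)⁻¹‖ = ‖w‖⁻¹ := by
  rw [norm_inv, Complex.norm_conj]

theorem DH.dbl_continuous {G H : ℂ → ℂ} (h : DH G H) : Continuous (dbl H) := by
  unfold dbl
  refine continuous_if_le (f := fun w : ℂ => ‖w‖) (g := fun _ => 1) continuous_norm continuous_const
    ?_ ?_ ?_
  · apply h.Hc.mono
    intro x hx
    exact mem_closedBall_zero_iff.2 hx
  · have hmem : ∀ x ∈ {x : ℂ | 1 ≤ ‖x‖}, x ≠ 0 := by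
      intro x hx h0
      rw [mem_ofPred_eq, h0, norm_zero] at hx
      linarith
    have hle : ∀ x ∈ {x : ℂ | 1 ≤ ‖x‖}, ‖(conj x)⁻¹‖ ≤ 1 := by
      intro x hx
      rw [norm_inv_conj]
      exact inv_le_one_of_one_le₀ hx
    apply ContinuousOn.inv₀
    · apply Complex.continuous_conj.comp_continuousOn
      apply h.Hc.comp
      · apply ContinuousOn.inv₀ Complex.continuous_conj.continuousOn
        intro x hx
        rw [ne_eq, map_eq_zero]
        exact hmem x hx
      · intro x hx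
        exact mem_closedBall_zero_iff.2 (hle x hx)
    · intro x hx
      rw [ne_eq, map_eq_zero]
      apply h.ne (hle x hx)
      rw [ne_eq, inv_eq_zero, map_eq_zero]
      exact hmem x hx
  · intro x hx
    have e1 : (conj x)⁻¹ = x := by
      rw [conj_eq_inv_of_norm_one hx, inv_inv]
    rw [e1, conj_eq_inv_of_norm_one (h.H1 x hx), inv_inv]

theorem DH.dbl_inv {G H : ℂ → ℂ} (h : DH G H) (w : ℂ) : dbl G (dbl H w) = w := by
  by_cases hw : ‖w‖ ≤ 1
  · have h1 : dbl H w = H w := by simp [dbl, hw]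
    have hwc : w ∈ closedBall (0:ℂ) 1 := mem_closedBall_zero_iff.2 hw
    have h2 : ‖H w‖ ≤ 1 := mem_closedBall_zero_iff.1 (h.Hm hwc)
    rw [h1, dbl, if_pos h2, h.GH w hwc]
  · have hw1 : 1 < ‖w‖ := not_le.1 hw
    set v := (conj w)⁻¹ with hv
    have hvn : ‖v‖ < 1 := by
      rw [hv, norm_inv_conj]
      exact inv_lt_one_of_one_lt₀ hw1
    have hw0 : w ≠ 0 := by
      rintro rfl
      simp at hw1
      linarith
    have hv0 : v ≠ 0 := by
      rw [hv, ne_eq, inv_eq_zero, map_eq_zero]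
      exact hw0
    have h1 : dbl H w = (conj (H v))⁻¹ := by rw [dbl, if_neg hw]
    have h2 : ‖H v‖ < 1 := h.lt hvn
    have h3 : H v ≠ 0 := h.ne hvn.le hv0
    have h4 : ¬ ‖(conj (H v))⁻¹‖ ≤ 1 := by
      rw [norm_inv_conj, not_le]
      exact (one_lt_inv₀ (norm_pos_iff.2 h3)).2 h2
    rw [h1, dbl, if_neg h4]
    have h5 : (conj (conj (H v))⁻¹)⁻¹ = H v := by
      rw [map_inv₀, Complex.conj_conj, inv_inv]
    rw [h5, h.GH v (mem_closedBall_zero_iff.2 hvn.le), hv, map_inv₀, Complex.conj_conj, inv_inv]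

/-- the double as a homeomorphism -/
noncomputable def DH.homeo {G H : ℂ → ℂ} (h : DH G H) : ℂ ≃ₜ ℂ where
  toFun := dbl H
  invFun := dbl G
  left_inv := h.dbl_inv
  right_inv := h.symm.dbl_inv
  continuous_toFun := h.dbl_continuous
  continuous_invFun := h.symm.dbl_continuous

/-- the domain `e (ball 0 1)` is simply connected -/
theorem simplyConnected_image (e : OpenPartialHomeomorph ℂ ℂ) {c : ℂ} {r : ℝ} (hr : 0 < r)
    (hb : ball c r ⊆ e.source) : IsSimplyConnected (e '' ball c r) := by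
  have h1 : ContractibleSpace (ball c r) := (convex_ball c r).contractibleSpace ⟨c, mem_ball_self hr⟩
  have h2 : ContractibleSpace (e '' ball c r) :=
    (e.homeomorphOfImageSubsetSource hb rfl).symm.contractibleSpace
  exact (inferInstance : SimplyConnectedSpace (e '' ball c r))

/-- **doubling**: if `E ∪ mirror E` is removable then an embedding of the closed disc holomorphic
off `E` is holomorphic -/
theorem double {e : OpenPartialHomeomorph ℂ ℂ} (hb : closedBall 0 1 ⊆ e.source) {E : Set ℂ}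
    (hE : IsClosed E) (hd : DifferentiableOn ℂ e (ball 0 1 \ E))
    (hrem : CHRemovable (E ∪ mirror E)) : DifferentiableOn ℂ e (ball 0 1) := by
  have hbb : ball (0:ℂ) 1 ⊆ e.source := ball_subset_closedBall.trans hb
  set W : Set ℂ := e '' ball 0 1 with hW
  have hWo : IsOpen W := e.isOpen_image_of_subset_source isOpen_ball hbb
  have hWs : IsSimplyConnected W := simplyConnected_image e one_pos hbb
  have hec : ContinuousOn e (closedBall 0 1) := e.continuousOn.mono hb
  have hei : InjOn e (closedBall 0 1) := e.injOn.mono hb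
  have hWne : W ≠ univ := by
    intro h
    obtain ⟨M, hM⟩ := ((isCompact_closedBall (0:ℂ) 1).image_of_continuousOn hec).isBounded.exists_norm_le
    have h1 : ((|M| + 1 : ℝ) : ℂ) ∈ W := by rw [h]; trivial
    have h2 := hM _ (image_mono ball_subset_closedBall h1)
    rw [Complex.norm_real, Real.norm_of_nonneg (by positivity)] at h2
    linarith [le_abs_self M]
  have h0W : e 0 ∈ W := ⟨0, mem_ball_self one_pos, rfl⟩
  obtain ⟨ψ, hψ, hψW⟩ := riemann_mapping hWo hWs hWne h0W
  have hWp : IsPreconnected W := hWs.isPathConnected.isConnected.isPreconnected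
  set φ := Function.invFunOn ψ W with hφ
  have hφd : DifferentiableOn ℂ φ (ball 0 1) := by
    have := inv_holo hWo hWp ⟨_, h0W⟩ hψ.d hψ.i
    rwa [hψW] at this
  have hφψ : ∀ x ∈ W, φ (ψ x) = x := fun x hx => hψ.i.leftInvOn_invFunOn hx
  have hψφ : ∀ y ∈ ball (0:ℂ) 1, φ y ∈ W ∧ ψ (φ y) = y := by
    intro y hy
    rw [← hψW] at hy
    obtain ⟨x, hx, rfl⟩ := hy
    rw [hφψ x hx]
    exact ⟨hx, rfl⟩
  have hφi : InjOn φ (ball 0 1) := by
    intro x hx y hy h
    rw [← (hψφ x hx).2, h, (hψφ y hy).2]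
  have him : φ '' ball 0 1 = e '' ball 0 1 := by
    apply Subset.antisymm
    · rintro _ ⟨y, hy, rfl⟩
      exact (hψφ y hy).1
    · intro x hx
      have hx' : x ∈ W := hx
      exact ⟨ψ x, hψ.m hx', hφψ x hx'⟩
  have h0 : φ 0 = e 0 := by
    have := hφψ _ h0W
    rwa [hψ.z] at this
  obtain ⟨G, H, hGc, hHc, hGm, hHm, hHG, hGH, hG1, hH1, hG0, -, hHb, hφH⟩ :=
    caratheodory hec hei hφd hφi him h0
  have hDH : DH G H := ⟨hGc, hHc, hGm, hHm, hHG, hGH, hG1, hH1, hG0⟩
  have hHψ : ∀ x ∈ ball (0:ℂ) 1, H x = ψ (e x) := by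
    intro x hx
    rw [← hφH x hx, (hψφ _ (hHb x hx)).2]
  set F := hDH.homeo with hF
  have hFe : ∀ w, F w = dbl H w := fun _ => rfl
  -- inside
  have hHd : ∀ z ∈ ball (0:ℂ) 1, z ∉ E → DifferentiableAt ℂ H z := by
    intro z hz hzE
    have hopen : IsOpen (ball (0:ℂ) 1 \ E) := isOpen_ball.sdiff hE
    have h1 : DifferentiableAt ℂ e z := hd.differentiableAt (hopen.mem_nhds ⟨hz, hzE⟩)
    have h2 : DifferentiableAt ℂ ψ (e z) := hψ.d.differentiableAt (hWo.mem_nhds ⟨z, hz, rfl⟩)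
    have h3 : DifferentiableAt ℂ (fun x => ψ (e x)) z := h2.comp z h1
    apply h3.congr_of_eventuallyEq
    filter_upwards [isOpen_ball.mem_nhds hz] with x hx
    exact hHψ x hx
  have hin : ∀ w : ℂ, ‖w‖ < 1 → w ∉ E → DifferentiableAt ℂ F w := by
    intro w hw hwE
    have h1 := hHd w (mem_ball_zero_iff.2 hw) hwE
    apply h1.congr_of_eventuallyEq
    filter_upwards [isOpen_ball.mem_nhds (mem_ball_zero_iff.2 hw)] with x hx
    rw [hFe, dbl, if_pos (mem_ball_zero_iff.1 hx).le]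
  have hout : ∀ w : ℂ, 1 < ‖w‖ → w ∉ mirror E → DifferentiableAt ℂ F w := by
    intro w hw hwE
    have hw0 : w ≠ 0 := by
      rintro rfl
      rw [norm_zero] at hw
      linarith
    set v := (conj w)⁻¹ with hv
    have hvn : ‖v‖ < 1 := by
      rw [hv, norm_inv_conj]
      exact inv_lt_one_of_one_lt₀ hw
    have hv0 : v ≠ 0 := by
      rw [hv, ne_eq, inv_eq_zero, map_eq_zero]
      exact hw0
    have h1 : DifferentiableAt ℂ H v := hHd v (mem_ball_zero_iff.2 hvn) hwE
    have h2 : DifferentiableAt ℂ (conj ∘ H ∘ conj) (conj v) := h1.conj_conj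
    have h3 : conj v = w⁻¹ := by rw [hv, map_inv₀, Complex.conj_conj]
    rw [h3] at h2
    have h4 : DifferentiableAt ℂ (fun x : ℂ => x⁻¹) w := differentiableAt_inv hw0
    have h5 : DifferentiableAt ℂ (fun x => (conj ∘ H ∘ conj) x⁻¹) w :=
      DifferentiableAt.comp (g := conj ∘ H ∘ conj) (f := fun x : ℂ => x⁻¹) w h2 h4
    have h6 : (conj ∘ H ∘ conj) w⁻¹ ≠ 0 := by
      simp only [Function.comp_apply]
      rw [ne_eq, map_eq_zero, ← h3, Complex.conj_conj]
      exact hDH.ne hvn.le hv0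
    have h7 : DifferentiableAt ℂ (fun x => ((conj ∘ H ∘ conj) x⁻¹)⁻¹) w := h5.inv h6
    apply h7.congr_of_eventuallyEq
    have hopen : IsOpen {x : ℂ | 1 < ‖x‖} := isOpen_lt continuous_const continuous_norm
    filter_upwards [hopen.mem_nhds hw] with x hx
    rw [hFe, dbl, if_neg (not_le.2 hx)]
    simp only [Function.comp_apply]
    rw [map_inv₀ (starRingEnd ℂ) x]
  have hFd : DifferentiableOn ℂ F (E ∪ mirror E)ᶜ := by
    intro w hw
    apply DifferentiableAt.differentiableWithinAt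
    rcases lt_trichotomy ‖w‖ 1 with h1 | h1 | h1
    · exact hin w h1 (fun h => hw (Or.inl h))
    · apply painleve_circle h1
      · exact Eventually.of_forall (fun z => F.continuous.continuousAt)
      · have hw0 : w ≠ 0 := by
          rintro rfl
          rw [norm_zero] at h1
          linarith
        have hc : ContinuousAt (fun z : ℂ => (conj z)⁻¹) w := by
          apply ContinuousAt.inv₀ Complex.continuous_conj.continuousAt
          rwa [ne_eq, map_eq_zero]
        have h2 : ∀ᶠ z in 𝓝 w, (conj z)⁻¹ ∉ E :=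
          hc.eventually (hE.isOpen_compl.mem_nhds (fun h => hw (Or.inr h)))
        have h3 : ∀ᶠ z in 𝓝 w, z ∉ E := hE.isOpen_compl.mem_nhds (fun h => hw (Or.inl h))
        filter_upwards [h2, h3] with z hz2 hz3 hz1
        rcases lt_or_gt_of_ne hz1 with h4 | h4
        · exact hin z h4 hz3
        · exact hout z h4 hz2
    · exact hout w h1 (fun h => hw (Or.inr h))
  have hent : Differentiable ℂ F := hrem F hFd
  -- conclusion
  intro z hz
  have h1 : DifferentiableAt ℂ H z := by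
    apply (hent z).congr_of_eventuallyEq
    filter_upwards [isOpen_ball.mem_nhds hz] with x hx
    rw [hFe, dbl, if_pos (mem_ball_zero_iff.1 hx).le]
  have h2 : DifferentiableAt ℂ φ (H z) := hφd.differentiableAt (isOpen_ball.mem_nhds (hHb z hz))
  have h3 : DifferentiableAt ℂ (fun x => φ (H x)) z := h2.comp z h1
  apply DifferentiableAt.differentiableWithinAt
  apply h3.congr_of_eventuallyEq
  filter_upwards [isOpen_ball.mem_nhds hz] with x hx
  exact (hφH x hx).symm

end Pool.Agent.Loc226
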