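import Mathlib
import Pool.Agent.Work.MP_c9b226_loc.D
import Pool.Agent.Work.MP_c9b226_an.Main

set_option autoImplicit false

open Set Metric Complex Filter Topology
open scoped ComplexConjugate NNReal
open Pool.Agent.Work.MP_c9b226_an (CHRemovable)

namespace Pool.Agent.Loc226

theorem CH_mono {E F : Set ℂ} (h : CHRemovable F) (hEF : E ⊆ F) : CHRemovable E :=
  fun f hf => h f (hf.mono (compl_subset_compl.2 hEF))

/-- removable sets have empty interior -/
theorem interior_eq_empty {K : Set ℂ} (h : CHRemovable K) : interior K = ∅ := by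
  by_contra hne
  obtain ⟨p, hp⟩ := nonempty_iff_ne_empty.2 hne
  obtain ⟨ε, hε, hεK⟩ := Metric.isOpen_iff.1 isOpen_interior p hp
  -- the bump
  set u : ℂ → ℝ := fun z => max (ε / 2 - dist z p) 0 with hu
  have huL : ∀ z w, |u z - u w| ≤ ‖z - w‖ := by
    intro z w
    have h1 : |u z - u w| ≤ |(ε / 2 - dist z p) - (ε / 2 - dist w p)| :=
      abs_max_sub_max_le_abs _ _ _
    have h2 := abs_dist_sub_le z w p
    have e : (ε / 2 - dist z p) - (ε / 2 - dist w p) = -(dist z p - dist w p) := by ring
    rw [e, abs_neg] at h1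
    rw [← dist_eq_norm]
    linarith
  set F : ℂ → ℂ := fun z => z + ((u z / 2 : ℝ) : ℂ) with hF
  have hap : ApproximatesLinearOn F ((ContinuousLinearEquiv.refl ℝ ℂ : ℂ ≃L[ℝ] ℂ) : ℂ →L[ℝ] ℂ)
      univ (1 / 2 : ℝ≥0) := by
    intro z _ w _
    have e : F z - F w - ((ContinuousLinearEquiv.refl ℝ ℂ : ℂ ≃L[ℝ] ℂ) : ℂ →L[ℝ] ℂ) (z - w) =
        (((u z - u w) / 2 : ℝ) : ℂ) := by
      simp only [hF, ContinuousLinearEquiv.coe_refl, ContinuousLinearMap.id_apply]
      push_cast
      ring
    rw [e, Complex.norm_real, Real.norm_eq_abs, abs_div, abs_two]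
    have := huL z w
    have e2 : (((1 / 2 : ℝ≥0)) : ℝ) = 1 / 2 := by norm_num
    rw [e2]
    linarith
  set Fh := hap.toHomeomorph F (Or.inr (by
    have : ‖(((ContinuousLinearEquiv.refl ℝ ℂ).symm : ℂ ≃L[ℝ] ℂ) : ℂ →L[ℝ] ℂ)‖₊ = 1 := by
      simp
    rw [this]
    norm_num)) with hFh
  have hFe : ∀ z, Fh z = F z := fun z => rfl
  have hid : ∀ z, ε / 2 < dist z p → Fh z = z := by
    intro z hz
    rw [hFe]
    simp only [hF, hu]
    rw [max_eq_right (by linarith)]
    simp
  have hopen : IsOpen {z : ℂ | ε / 2 < dist z p} := isOpen_lt continuous_const (by fun_prop)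
  have hd : DifferentiableOn ℂ Fh Kᶜ := by
    intro z hz
    have h1 : ε ≤ dist z p := by
      by_contra hcon
      push Not at hcon
      exact hz (interior_subset (hεK hcon))
    apply DifferentiableAt.differentiableWithinAt
    apply differentiableAt_id.congr_of_eventuallyEq
    filter_upwards [hopen.mem_nhds (show ε / 2 < dist z p by linarith)] with w hw
    exact hid w hw
  have hent := h Fh hd
  have heq : (Fh : ℂ → ℂ) = id := by
    apply AnalyticOnNhd.eq_of_eventuallyEq (z₀ := p + ((ε : ℝ) : ℂ))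
      (fun z _ => (hent.analyticAt z)) (fun z _ => analyticAt_id)
    filter_upwards [hopen.mem_nhds (show ε / 2 < dist (p + ((ε : ℝ) : ℂ)) p by
      rw [dist_eq_norm, add_sub_cancel_left, Complex.norm_real, Real.norm_of_nonneg hε.le]
      linarith)] with w hw
    exact hid w hw
  have h2 := congrFun heq p
  rw [hFe] at h2
  simp only [hF, hu, id_eq, dist_self, sub_zero] at h2
  rw [max_eq_left (by linarith)] at h2
  have h3 : ((ε / 2 / 2 : ℝ) : ℂ) = 0 := by linear_combination h2
  rw [Complex.ofReal_eq_zero] at h3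
  linarith

/-- the inversion -/
noncomputable def inv' (z : ℂ) : ℂ := (conj z)⁻¹

theorem inv'_inv' (z : ℂ) : inv' (inv' z) = z := by
  simp [inv']

theorem inv'_zero : inv' 0 = 0 := by simp [inv']

theorem inv'_ne {z : ℂ} (hz : z ≠ 0) : inv' z ≠ 0 := by
  simp [inv', hz]

theorem inv'_continuousAt {z : ℂ} (hz : z ≠ 0) : ContinuousAt inv' z := by
  apply ContinuousAt.inv₀ Complex.continuous_conj.continuousAt
  rwa [ne_eq, map_eq_zero]

theorem inv'_tendsto_cocompact : Tendsto inv' (𝓝[≠] 0) (cocompact ℂ) := by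
  have h1 : Tendsto (fun z : ℂ => conj z) (𝓝[≠] 0) (𝓝[≠] 0) := by
    rw [tendsto_nhdsWithin_iff]
    constructor
    · have := Complex.continuous_conj.tendsto 0
      rw [map_zero] at this
      exact this.mono_left nhdsWithin_le_nhds
    · filter_upwards [self_mem_nhdsWithin] with z hz
      simpa using hz
  rw [← Metric.cobounded_eq_cocompact]
  exact (tendsto_inv₀_nhdsNE_zero).comp h1

theorem inv'_tendsto_zero : Tendsto inv' (cocompact ℂ) (𝓝 0) := by
  rw [← Metric.cobounded_eq_cocompact, tendsto_zero_iff_norm_tendsto_zero]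
  have : (fun z => ‖inv' z‖) = fun z : ℂ => ‖z⁻¹‖ := by
    funext z
    simp [inv']
  rw [this, ← tendsto_zero_iff_norm_tendsto_zero]
  exact tendsto_inv₀_cobounded

/-- conjugation of a homeomorphism fixing `0` with the inversion -/
noncomputable def cj (F : ℂ → ℂ) (z : ℂ) : ℂ := inv' (F (inv' z))

theorem cj_continuous (F : ℂ ≃ₜ ℂ) (h0 : F 0 = 0) : Continuous (cj F) := by
  rw [continuous_iff_continuousAt]
  intro z
  by_cases hz : z = 0
  · subst hz
    rw [continuousAt_iff_punctured_nhds]
    have e : cj F 0 = 0 := by simp [cj, inv'_zero, h0]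
    rw [e]
    have h1 : Tendsto (fun z => F (inv' z)) (𝓝[≠] 0) (cocompact ℂ) :=
      F.isClosedEmbedding.tendsto_cocompact.comp inv'_tendsto_cocompact
    exact inv'_tendsto_zero.comp h1
  · have h1 : F (inv' z) ≠ 0 := by
      intro h
      rw [← h0] at h
      exact inv'_ne hz (F.injective h)
    have h2 : ContinuousAt (fun z => F (inv' z)) z :=
      F.continuous.continuousAt.comp (inv'_continuousAt hz)
    exact ContinuousAt.comp (g := inv') (f := fun z => F (inv' z)) (inv'_continuousAt h1) h2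

theorem cj_cj (F : ℂ → ℂ) : cj (cj F) = F := by
  funext z
  simp [cj, inv'_inv']

theorem cj_comp (F G : ℂ → ℂ) (z : ℂ) : cj F (cj G z) = cj (fun w => F (G w)) z := by
  simp [cj, inv'_inv']

/-- as a homeomorphism -/
noncomputable def cjh (F : ℂ ≃ₜ ℂ) (h0 : F 0 = 0) : ℂ ≃ₜ ℂ where
  toFun := cj F
  invFun := cj F.symm
  left_inv := fun z => by
    rw [cj_comp]
    simp [cj, inv'_inv']
  right_inv := fun z => by
    rw [cj_comp]
    simp [cj, inv'_inv']
  continuous_toFun := cj_continuous F h0
  continuous_invFun := cj_continuous F.symm (by rw [Homeomorph.symm_apply_eq, h0])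

theorem cj_differentiableAt {F : ℂ → ℂ} {z : ℂ} (hz : z ≠ 0) (hF0 : F (inv' z) ≠ 0)
    (hd : DifferentiableAt ℂ F (inv' z)) : DifferentiableAt ℂ (cj F) z := by
  have hcz : conj z ≠ 0 := by rwa [ne_eq, map_eq_zero]
  have h1 : DifferentiableAt ℂ (fun w : ℂ => (F w⁻¹)⁻¹) (conj z) := by
    apply DifferentiableAt.inv
    · exact DifferentiableAt.comp (g := F) (f := fun w : ℂ => w⁻¹) (conj z) hd (differentiableAt_inv hcz)
    · exact hF0
  have h2 := h1.conj_conj
  rw [Complex.conj_conj] at h2
  have e : (conj ∘ (fun w : ℂ => (F w⁻¹)⁻¹) ∘ conj) = cj F := by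
    funext w
    simp [cj, inv']
  rwa [e] at h2

/-- removability is invariant under the inversion -/
theorem CH_mirror {E : Set ℂ} (hE : IsClosed E) (h0 : (0:ℂ) ∉ E) (h : CHRemovable E) :
    CHRemovable (mirror E) := by
  intro F hF
  -- `mirror E` is closed near every point different from `0`, and `0` is not in it
  have hM0 : (0:ℂ) ∉ mirror E := by
    simp [mirror, h0]
  have hmem : ∀ z, z ∈ mirror E ↔ inv' z ∈ E := fun z => Iff.rfl
  set F1 : ℂ ≃ₜ ℂ := F.trans (Homeomorph.addRight (-F 0)) with hF1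
  have hF1e : ∀ z, F1 z = F z - F 0 := fun z => by simp [hF1, sub_eq_add_neg]
  have hF10 : F1 0 = 0 := by rw [hF1e, sub_self]
  have hnhds : ∀ z, z ≠ 0 → z ∉ mirror E → (mirror E)ᶜ ∈ 𝓝 z := by
    intro z hz hzE
    exact (inv'_continuousAt hz).eventually (hE.isOpen_compl.mem_nhds hzE)
  have hFd : ∀ z, z ≠ 0 → z ∉ mirror E → DifferentiableAt ℂ F1 z := by
    intro z hz hzE
    have h1 : DifferentiableAt ℂ F z := hF.differentiableAt (hnhds z hz hzE)
    have e : (F1 : ℂ → ℂ) = fun z => F z - F 0 := funext hF1e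
    rw [e]
    exact h1.sub_const _
  set Q := cjh F1 hF10 with hQ
  have hQe : (Q : ℂ → ℂ) = cj F1 := rfl
  have hF1ne : ∀ z, z ≠ 0 → F1 z ≠ 0 := by
    intro z hz h
    rw [← hF10] at h
    exact hz (F1.injective h)
  have hQd : ∀ z, z ≠ 0 → z ∉ E → DifferentiableAt ℂ Q z := by
    intro z hz hzE
    rw [hQe]
    apply cj_differentiableAt hz (hF1ne _ (inv'_ne hz))
    apply hFd _ (inv'_ne hz)
    rw [hmem, inv'_inv']
    exact hzE
  have hQ0 : DifferentiableAt ℂ Q 0 := by
    apply (analyticAt_of_differentiable_on_punctured_nhds_of_continuousAt ?_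
      Q.continuous.continuousAt).differentiableAt
    rw [eventually_nhdsWithin_iff]
    filter_upwards [hE.isOpen_compl.mem_nhds h0] with z hz hz0
    exact hQd z hz0 hz
  have hQent : Differentiable ℂ Q := by
    apply h
    intro z hz
    apply DifferentiableAt.differentiableWithinAt
    by_cases hz0 : z = 0
    · rw [hz0]; exact hQ0
    · exact hQd z hz0 hz
  have hF1d : ∀ z, z ≠ 0 → DifferentiableAt ℂ F1 z := by
    intro z hz
    have e : (F1 : ℂ → ℂ) = cj Q := by rw [hQe, cj_cj]
    rw [e]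
    apply cj_differentiableAt hz
    · intro h1
      rw [hQe] at h1
      simp only [cj, inv'_inv'] at h1
      exact inv'_ne (hF1ne z hz) h1
    · exact hQent _
  have hF10' : DifferentiableAt ℂ F1 0 := by
    apply (analyticAt_of_differentiable_on_punctured_nhds_of_continuousAt ?_
      F1.continuous.continuousAt).differentiableAt
    filter_upwards [self_mem_nhdsWithin] with z hz
    exact hF1d z hz
  intro z
  have h1 : DifferentiableAt ℂ F1 z := by
    by_cases hz0 : z = 0
    · rw [hz0]; exact hF10'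
    · exact hF1d z hz0
  have e : (F : ℂ → ℂ) = fun z => F1 z + F 0 := by
    funext z
    rw [hF1e]
    ring
  rw [e]
  exact h1.add_const _

/-- the mirror image of a compact set is compact -/
theorem mirror_compact {E : Set ℂ} (hE : IsCompact E) (h0 : (0:ℂ) ∉ E) : IsCompact (mirror E) := by
  have e : mirror E = inv' '' E := by
    ext z
    constructor
    · intro hz
      exact ⟨inv' z, hz, inv'_inv' z⟩
    · rintro ⟨w, hw, rfl⟩
      show inv' (inv' w) ∈ E
      rwa [inv'_inv']
  rw [e]
  apply hE.image_of_continuousOn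
  intro z hz
  apply (inv'_continuousAt _).continuousWithinAt
  rintro rfl
  exact h0 hz

end Pool.Agent.Loc226
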