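import Mathlib
import Pool.Agent.Work.MP_c9b226_loc.E

set_option autoImplicit false

open Set Metric Complex Filter Topology
open scoped ComplexConjugate NNReal
open Pool.Agent.Work.MP_c9b226_an (CHRemovable exists_portion CHRemovable.preimage)

namespace Pool.Agent.Loc226

/-- generic circles meet a closed set with empty interior in a set without arcs -/
theorem exists_radius {K : Set ℂ} (hK : IsClosed K) (hint : interior K = ∅) (a : ℂ) {r₁ r₂ : ℝ}
    (h0 : 0 ≤ r₁) (h12 : r₁ < r₂) : ∃ r ∈ Ioo r₁ r₂, ∀ u : ℂ, ‖u‖ = 1 → ∀ δ > 0,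
      ∃ v : ℂ, ‖v‖ = 1 ∧ ‖v - u‖ < δ ∧ a + r * v ∉ K := by
  set C : ℚ × ℕ → Set ℝ := fun p => {r | ∀ v : ℂ, ‖v‖ = 1 →
    ‖v - exp (I * ((p.1 : ℝ) : ℂ))‖ < 1 / ((p.2 : ℝ) + 1) → a + r * v ∈ K} with hC
  have hCc : ∀ p, IsClosed (C p) := by
    intro p
    have e : C p = ⋂ (v : ℂ) (_ : ‖v‖ = 1) (_ : ‖v - exp (I * ((p.1 : ℝ) : ℂ))‖ < 1 / ((p.2 : ℝ) + 1)),
        (fun r : ℝ => a + r * v) ⁻¹' K := by
      ext r
      simp [hC]
    rw [e]
    exact isClosed_iInter (fun v => isClosed_iInter (fun _ => isClosed_iInter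
      (fun _ => hK.preimage (by fun_prop))))
  have hCi : ∀ p, interior (C p ∩ Icc r₁ r₂) = ∅ := by
    intro p
    by_contra hne
    obtain ⟨s, hs⟩ := nonempty_iff_ne_empty.2 hne
    rw [interior_inter, interior_Icc] at hs
    obtain ⟨hs1, hs2⟩ := hs
    have hs0 : 0 < s := lt_of_le_of_lt h0 hs2.1
    have hsc : (s : ℂ) ≠ 0 := by exact_mod_cast hs0.ne'
    set u₀ : ℂ := exp (I * ((p.1 : ℝ) : ℂ)) with hu₀
    have hu₀n : ‖u₀‖ = 1 := Complex.norm_exp_I_mul_ofReal _
    have hint' : K ∈ 𝓝 (a + s * u₀) := by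
      have hc1 : ContinuousAt (fun z : ℂ => ‖z - a‖) (a + s * u₀) := by fun_prop
      have hn : ‖a + s * u₀ - a‖ = s := by
        rw [add_sub_cancel_left, norm_mul, hu₀n, mul_one, Complex.norm_real,
          Real.norm_of_nonneg hs0.le]
      have ht1 : Tendsto (fun z : ℂ => ‖z - a‖) (𝓝 (a + s * u₀)) (𝓝 s) := by
        have := hc1.tendsto
        simp only [hn] at this
        exact this
      have e1 : ∀ᶠ z in 𝓝 (a + s * u₀), ‖z - a‖ ∈ interior (C p) :=
        ht1.eventually (isOpen_interior.mem_nhds hs1)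
      have e2 : ∀ᶠ z in 𝓝 (a + s * u₀), 0 < ‖z - a‖ :=
        ht1.eventually (isOpen_Ioi.mem_nhds hs0)
      have hc2 : ContinuousAt (fun z : ℂ => ‖(z - a) / (‖z - a‖ : ℝ) - u₀‖) (a + s * u₀) := by
        apply ContinuousAt.norm
        apply ContinuousAt.sub _ continuousAt_const
        apply ContinuousAt.div (by fun_prop) (by fun_prop)
        rw [hn]
        exact hsc
      have ht2 : Tendsto (fun z : ℂ => ‖(z - a) / (‖z - a‖ : ℝ) - u₀‖) (𝓝 (a + s * u₀)) (𝓝 0) := by
        have h5 : ‖(a + s * u₀ - a) / (‖a + s * u₀ - a‖ : ℝ) - u₀‖ = 0 := by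
          rw [hn, add_sub_cancel_left, mul_div_cancel_left₀ _ hsc, sub_self, norm_zero]
        have := hc2.tendsto
        simp only [h5] at this
        exact this
      have e3 : ∀ᶠ z in 𝓝 (a + s * u₀), ‖(z - a) / (‖z - a‖ : ℝ) - u₀‖ < 1 / ((p.2 : ℝ) + 1) :=
        (tendsto_order.1 ht2).2 _ (by positivity)
      filter_upwards [e1, e2, e3] with z hz1 hz2 hz3
      have hzc : ((‖z - a‖ : ℝ) : ℂ) ≠ 0 := by exact_mod_cast hz2.ne'
      have h1 := (interior_subset hz1) ((z - a) / (‖z - a‖ : ℝ)) (by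
        rw [norm_div, Complex.norm_real, norm_norm, div_self hz2.ne']) hz3
      have h2 : a + ((‖z - a‖ : ℝ) : ℂ) * ((z - a) / (‖z - a‖ : ℝ)) = z := by
        field_simp
        ring
      rwa [h2] at h1
    have : a + s * u₀ ∈ interior K := mem_interior_iff_mem_nhds.2 hint'
    rw [hint] at this
    exact this
  have hdense : Dense (⋂ p : ℚ × ℕ, (C p ∩ Icc r₁ r₂)ᶜ) := by
    apply dense_iInter_of_isOpen
    · exact fun p => ((hCc p).inter isClosed_Icc).isOpen_compl
    · intro p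
      rw [← interior_eq_empty_iff_dense_compl]
      exact hCi p
  obtain ⟨r, hr1, hr2⟩ := hdense.inter_open_nonempty (Ioo r₁ r₂) isOpen_Ioo
    ⟨(r₁ + r₂) / 2, by constructor <;> linarith⟩
  refine ⟨r, hr1, fun u hu δ hδ => ?_⟩
  obtain ⟨n, hn⟩ := exists_nat_one_div_lt (show 0 < δ / 2 by positivity)
  -- a rational angle
  have harg : exp (I * ((arg u : ℝ) : ℂ)) = u := by
    have := Complex.norm_mul_exp_arg_mul_I u
    rw [hu] at this
    rw [mul_comm]
    simpa using this
  obtain ⟨q, hq1, hq2⟩ := exists_rat_btwn (show arg u < arg u + δ / 2 by linarith)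
  have hqu : ‖exp (I * ((q : ℝ) : ℂ)) - u‖ < δ / 2 := by
    have e : exp (I * ((q : ℝ) : ℂ)) - u = u * (exp (I * (((q : ℝ) - arg u : ℝ) : ℂ)) - 1) := by
      have : exp (I * ((q : ℝ) : ℂ)) = u * exp (I * (((q : ℝ) - arg u : ℝ) : ℂ)) := by
        have h9 : u * exp (I * (((q : ℝ) - arg u : ℝ) : ℂ)) =
            exp (I * ((arg u : ℝ) : ℂ)) * exp (I * (((q : ℝ) - arg u : ℝ) : ℂ)) := by rw [harg]
        rw [h9, ← Complex.exp_add]
        congr 1
        push_cast
        ring
      rw [this]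
      ring
    rw [e, norm_mul, hu, one_mul]
    apply lt_of_le_of_lt Real.norm_exp_I_mul_ofReal_sub_one_le
    rw [Real.norm_eq_abs, abs_lt]
    constructor <;> linarith
  have h1 := mem_iInter.1 hr2 (q, n)
  have h2 : r ∉ C (q, n) := fun h => h1 ⟨h, Ioo_subset_Icc_self hr1⟩
  simp only [hC, mem_ofPred_eq, not_forall] at h2
  obtain ⟨v, hv1, hv2, hv3⟩ := h2
  refine ⟨v, hv1, ?_, hv3⟩
  calc ‖v - u‖ = ‖(v - exp (I * ((q : ℝ) : ℂ))) + (exp (I * ((q : ℝ) : ℂ)) - u)‖ := by ring_nf
    _ ≤ ‖v - exp (I * ((q : ℝ) : ℂ))‖ + ‖exp (I * ((q : ℝ) : ℂ)) - u‖ := norm_add_le _ _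
    _ < δ := by linarith

/-- the mirror case of the union problem -/
def MirrorUnion : Prop := ∀ E : Set ℂ, IsCompact E → E ⊆ closedBall 0 1 → (0:ℂ) ∉ E →
  IsTotallyDisconnected (E ∩ sphere 0 1) → CHRemovable E → CHRemovable (E ∪ mirror E)

/-- from the mirror case to locality -/
theorem local_of_mirror (hmir : MirrorUnion) {K : Set ℂ} (hK : IsCompact K) (hKr : CHRemovable K)
    (e : OpenPartialHomeomorph ℂ ℂ) {B : Set ℂ} (hB : IsOpen B) (hBe : B ⊆ e.source)
    (hd : DifferentiableOn ℂ e (B \ K)) : DifferentiableOn ℂ e B := by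
  intro p hp
  apply DifferentiableAt.differentiableWithinAt
  obtain ⟨R, hR, hRB⟩ := Metric.isOpen_iff.1 hB p hp
  have hint := interior_eq_empty hKr
  -- the centre
  obtain ⟨a, haK, hap⟩ : ∃ a ∉ K, dist a p < R / 8 := by
    by_contra hcon
    push Not at hcon
    have h1 : ball p (R / 8) ⊆ K := by
      intro z hz
      by_contra hzK
      have := hcon z hzK
      rw [mem_ball] at hz
      linarith
    have h2 : p ∈ interior K := mem_interior.2 ⟨_, h1, isOpen_ball, mem_ball_self (by positivity)⟩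
    rw [hint] at h2
    exact h2
  obtain ⟨r, hr, harc⟩ := exists_radius hK.isClosed hint a (show 0 ≤ R / 4 by positivity)
    (show R / 4 < R / 2 by linarith)
  have hr0 : 0 < r := by linarith [hr.1]
  have hrc : (r : ℂ) ≠ 0 := by exact_mod_cast hr0.ne'
  -- the affine map
  let T : ℂ ≃ₜ ℂ := (Homeomorph.mulLeft₀ (r : ℂ) hrc).trans (Homeomorph.addLeft a)
  have hT : ∀ z, T z = a + r * z := fun z => rfl
  have hTs : ∀ z, T.symm z = (z - a) / r := by
    intro z
    rw [Homeomorph.symm_apply_eq, hT]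
    field_simp
    ring
  have hTb : ∀ z : ℂ, ‖z‖ ≤ 1 → T z ∈ B := by
    intro z hz
    apply hRB
    rw [mem_ball, hT]
    calc dist (a + r * z) p ≤ dist (a + r * z) a + dist a p := dist_triangle _ _ _
      _ = r * ‖z‖ + dist a p := by
          rw [dist_eq_norm, add_sub_cancel_left, norm_mul, Complex.norm_real,
            Real.norm_of_nonneg hr0.le]
      _ < R := by nlinarith [hr.2]
  let e' : OpenPartialHomeomorph ℂ ℂ := T.transOpenPartialHomeomorph e
  have he' : ∀ z, e' z = e (T z) := fun z => rfl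
  have hs' : closedBall (0:ℂ) 1 ⊆ e'.source := by
    intro z hz
    have : e'.source = T ⁻¹' e.source := rfl
    rw [this]
    exact hBe (hTb z (mem_closedBall_zero_iff.1 hz))
  set E : Set ℂ := {z | a + r * z ∈ K} ∩ closedBall 0 1 with hE
  have hpre : IsClosed {z : ℂ | a + r * z ∈ K} := hK.isClosed.preimage (by fun_prop)
  have hEc : IsCompact E := (isCompact_closedBall (0:ℂ) 1).inter_left hpre
  have hEr : CHRemovable E := CH_mono (CHRemovable.preimage hKr a hr0) inter_subset_left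
  have hE0 : (0:ℂ) ∉ E := by
    rintro ⟨h, -⟩
    rw [mem_ofPred_eq, mul_zero, add_zero] at h
    exact haK h
  have hEtd : IsTotallyDisconnected (E ∩ sphere 0 1) := by
    apply totallyDisconnected_of_no_arc
    · intro z hz
      exact mem_sphere_zero_iff_norm.1 hz.2
    · intro u hu δ hδ
      obtain ⟨v, hv1, hv2, hv3⟩ := harc u hu δ hδ
      exact ⟨v, hv1, hv2, fun h => hv3 h.1.1⟩
  have hrem := hmir E hEc inter_subset_right hE0 hEtd hEr
  have hdiff : DifferentiableOn ℂ e' (ball 0 1 \ E) := by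
    intro z hz
    have hzK : T z ∉ K := by
      intro h
      exact hz.2 ⟨h, ball_subset_closedBall hz.1⟩
    have h1 : T z ∈ B := hTb z (mem_ball_zero_iff.1 hz.1).le
    have h2 : DifferentiableAt ℂ e (T z) :=
      hd.differentiableAt ((hB.sdiff hK.isClosed).mem_nhds ⟨h1, hzK⟩)
    have h3 : DifferentiableAt ℂ T z := by
      have : (T : ℂ → ℂ) = fun z => a + r * z := funext hT
      rw [this]
      fun_prop
    exact (DifferentiableAt.comp (g := e) (f := T) z h2 h3).differentiableWithinAt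
  have hfin := double hs' hEc.isClosed hdiff hrem
  -- back
  have hpb : T.symm p ∈ ball (0:ℂ) 1 := by
    rw [mem_ball_zero_iff, hTs, norm_div, Complex.norm_real, Real.norm_of_nonneg hr0.le,
      div_lt_one hr0, ← dist_eq_norm, dist_comm]
    linarith [hr.1]
  have h1 : DifferentiableAt ℂ e' (T.symm p) := hfin.differentiableAt (isOpen_ball.mem_nhds hpb)
  have h2 : DifferentiableAt ℂ T.symm p := by
    have : (T.symm : ℂ → ℂ) = fun z => (z - a) / r := funext hTs
    rw [this]
    fun_prop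
  have h3 := DifferentiableAt.comp (g := e') (f := T.symm) p h1 h2
  have e1 : (e' ∘ T.symm) = e := by
    funext z
    simp only [Function.comp_apply]
    rw [he', Homeomorph.apply_symm_apply]
  rwa [e1] at h3

end Pool.Agent.Loc226
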