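import Mathlib
import Pool.Agent.Work.MP_c9b226_loc.G

set_option autoImplicit false

open Set Metric Complex Filter Topology
open scoped ComplexConjugate NNReal
open Pool.Agent.Work.MP_c9b226_an (CHRemovable exists_portion CHRemovable.preimage)

namespace Pool.Agent.Loc226

/-- invariance under affine maps -/
theorem CH_aff {K : Set ℂ} (hK : CHRemovable K) (p : ℂ) {c : ℂ} (hc : c ≠ 0) :
    CHRemovable {z | p + c * z ∈ K} := by
  intro f hf
  let T : ℂ ≃ₜ ℂ := (Homeomorph.mulLeft₀ c hc).trans (Homeomorph.addLeft p)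
  have hT : ∀ z, T z = p + c * z := fun z => rfl
  have hTs : ∀ z, T.symm z = (z - p) / c := by
    intro z
    rw [Homeomorph.symm_apply_eq, hT]
    field_simp
    ring
  have hTd : Differentiable ℂ T := by
    have : (T : ℂ → ℂ) = fun z => p + c * z := funext hT
    rw [this]
    fun_prop
  have hTsd : Differentiable ℂ T.symm := by
    have : (T.symm : ℂ → ℂ) = fun z => (z - p) / c := funext hTs
    rw [this]
    fun_prop
  have h1 : Differentiable ℂ (T.symm.trans f) := by
    apply hK
    have h2 : DifferentiableOn ℂ (fun z => f (T.symm z)) Kᶜ := by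
      apply hf.comp hTsd.differentiableOn
      intro z hz h
      apply hz
      have h3 : T (T.symm z) ∈ K := h
      rwa [Homeomorph.apply_symm_apply] at h3
    exact h2
  have h2 : (f : ℂ → ℂ) = fun z => (T.symm.trans f) (T z) := by
    funext z
    simp
  rw [h2]
  exact h1.comp hTd

/-- invariance under complex conjugation -/
theorem CH_conj {K : Set ℂ} (hKc : IsClosed K) (hK : CHRemovable K) :
    CHRemovable {z | conj z ∈ K} := by
  intro f hf
  let C : ℂ ≃ₜ ℂ := Complex.conjLIE.toHomeomorph
  have hC : ∀ z, C z = conj z := fun z => rfl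
  have hCs : ∀ z, C.symm z = conj z := fun z => rfl
  set g : ℂ ≃ₜ ℂ := (C.trans f).trans C with hg
  have hgf : (g : ℂ → ℂ) = conj ∘ f ∘ conj := rfl
  have hcl : IsClosed {z : ℂ | conj z ∈ K} := hKc.preimage Complex.continuous_conj
  have h1 : Differentiable ℂ g := by
    apply hK
    intro z hz
    apply DifferentiableAt.differentiableWithinAt
    rw [hgf]
    have h2 : DifferentiableAt ℂ f (conj z) := by
      apply hf.differentiableAt
      apply hcl.isOpen_compl.mem_nhds
      intro h
      apply hz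
      have h3 : conj (conj z) ∈ K := h
      rwa [Complex.conj_conj] at h3
    have h3 := h2.conj_conj
    rwa [Complex.conj_conj] at h3
  intro z
  have h2 := (h1 (conj z)).conj_conj
  rw [hgf, Complex.conj_conj] at h2
  have e : (conj ∘ (conj ∘ f ∘ conj) ∘ conj) = (f : ℂ → ℂ) := by
    funext w
    simp
  rwa [e] at h2

theorem CH_inv {K : Set ℂ} (hKc : IsClosed K) (h0 : (0:ℂ) ∉ K) (hK : CHRemovable K)
    (hK2 : IsCompact K) : CHRemovable {z | z⁻¹ ∈ K} := by
  have h1 := CH_mirror hKc h0 hK
  have h2 := CH_conj (mirror_compact hK2 h0).isClosed h1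
  have e : {z : ℂ | conj z ∈ mirror K} = {z | z⁻¹ ∈ K} := by
    ext z
    simp [mirror]
  rwa [e] at h2

/-- invariance under Möbius maps -/
theorem CH_mob {K : Set ℂ} (hKc : IsCompact K) (hK : CHRemovable K) {q : ℂ} (hq : q ∉ K) {b : ℂ}
    (hb : b ≠ 0) (a : ℂ) : CHRemovable {w | q + b * (w - a)⁻¹ ∈ K} := by
  have h1 : CHRemovable {z | q + b * z ∈ K} := CH_aff hK q hb
  have hc1 : IsClosed {z : ℂ | q + b * z ∈ K} := hKc.isClosed.preimage (by fun_prop)
  have hcomp : IsCompact {z : ℂ | q + b * z ∈ K} := by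
    have e : {z : ℂ | q + b * z ∈ K} = (fun w => (w - q) / b) '' K := by
      ext z
      constructor
      · intro hz
        refine ⟨_, hz, ?_⟩
        field_simp
        ring
      · rintro ⟨w, hw, rfl⟩
        rw [mem_ofPred_eq]
        have : q + b * ((w - q) / b) = w := by field_simp; ring
        rwa [this]
    rw [e]
    exact hKc.image (by fun_prop)
  have h0 : (0:ℂ) ∉ {z : ℂ | q + b * z ∈ K} := by
    rw [mem_ofPred_eq, mul_zero, add_zero]
    exact hq
  have h2 := CH_inv hc1 h0 h1 hcomp
  have h3 := CH_aff h2 (-a) one_ne_zero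
  have e : {z : ℂ | -a + 1 * z ∈ {z : ℂ | z⁻¹ ∈ {z : ℂ | q + b * z ∈ K}}} =
      {w | q + b * (w - a)⁻¹ ∈ K} := by
    ext z
    simp only [mem_ofPred_eq]
    have : -a + 1 * z = z - a := by ring
    rw [this]
  rwa [e] at h3

/-- the mirror case, for the real line -/
def MirrorLine : Prop := ∀ E : Set ℂ, IsCompact E → (∀ z ∈ E, 0 ≤ z.im) →
  IsTotallyDisconnected (E ∩ {z | z.im = 0}) → CHRemovable E → CHRemovable (E ∪ {z | conj z ∈ E})

theorem mirrorUnion_of_line (h : MirrorLine) : MirrorUnion := by
  intro E hE hEb h0 htd hr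
  -- a point of the circle outside `E`
  obtain ⟨q, hq, hqE⟩ : ∃ q : ℂ, ‖q‖ = 1 ∧ q ∉ E := by
    by_contra hcon
    push Not at hcon
    have h1 : E ∩ sphere 0 1 = sphere (0:ℂ) 1 := by
      apply inter_eq_right.2
      intro z hz
      exact hcon z (mem_sphere_zero_iff_norm.1 hz)
    rw [h1] at htd
    have h2 : IsPreconnected (sphere (0:ℂ) 1) := by
      apply (isConnected_sphere _ _ (by norm_num)).isPreconnected
      rw [Complex.rank_real_complex]
      norm_num
    have h3 := htd (sphere (0:ℂ) 1) Subset.rfl h2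
    have h4 := h3 (show (1:ℂ) ∈ sphere (0:ℂ) 1 by simp) (show (-1:ℂ) ∈ sphere (0:ℂ) 1 by simp)
    norm_num at h4
  have hq0 : q ≠ 0 := by
    rintro rfl
    simp at hq
  have hcq : conj q = q⁻¹ := conj_eq_inv_of_norm_one hq
  have hI2 : (-2 * I * q) ≠ 0 := mul_ne_zero (mul_ne_zero (by norm_num) I_ne_zero) hq0
  -- the inverse map `N w = q - 2 i q / (w + i)`, the map `M z = -i - 2 i q / (z - q)`
  set N : ℂ → ℂ := fun w => q + (-2 * I * q) * (w - (-I))⁻¹ with hN
  set M : ℂ → ℂ := fun z => -I + (-2 * I * q) * (z - q)⁻¹ with hM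
  have hNM : ∀ z, z ≠ q → N (M z) = z := by
    intro z hz
    have h1 : z - q ≠ 0 := sub_ne_zero.2 hz
    simp only [hN, hM]
    have h2 : -I + (-2 * I * q) * (z - q)⁻¹ - (-I) = (-2 * I * q) * (z - q)⁻¹ := by ring
    rw [h2, mul_inv, inv_inv]
    have h3 : (-2 * I * q) * ((-2 * I * q)⁻¹ * (z - q)) = z - q := by
      rw [← mul_assoc, mul_inv_cancel₀ hI2, one_mul]
    rw [h3]
    ring
  have hMN : ∀ w, w ≠ -I → M (N w) = w := by
    intro w hw
    have h1 : w - (-I) ≠ 0 := sub_ne_zero.2 hw
    simp only [hN, hM]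
    have h2 : q + (-2 * I * q) * (w - (-I))⁻¹ - q = (-2 * I * q) * (w - (-I))⁻¹ := by ring
    rw [h2, mul_inv, inv_inv]
    have h3 : (-2 * I * q) * ((-2 * I * q)⁻¹ * (w - (-I))) = w - (-I) := by
      rw [← mul_assoc, mul_inv_cancel₀ hI2, one_mul]
    rw [h3]
    ring
  have hMq : ∀ z, z ≠ q → M z ≠ -I := by
    intro z hz h1
    have h2 : (-2 * I * q) * (z - q)⁻¹ = 0 := by
      have : M z = -I + (-2 * I * q) * (z - q)⁻¹ := rfl
      rw [this] at h1
      linear_combination h1
    rcases mul_eq_zero.1 h2 with h3 | h3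
    · exact hI2 h3
    · exact sub_ne_zero.2 hz (inv_eq_zero.1 h3)
  have hEq : ∀ z ∈ E, z ≠ q := fun z hz h => hqE (h ▸ hz)
  set E' : Set ℂ := {w | N w ∈ E} with hE'
  have hE'M : E' = M '' E := by
    ext w
    constructor
    · intro hw
      refine ⟨N w, hw, hMN w ?_⟩
      rintro rfl
      have : N (-I) = q := by simp [hN]
      rw [hE', mem_ofPred_eq, this] at hw
      exact hqE hw
    · rintro ⟨z, hz, rfl⟩
      rw [hE', mem_ofPred_eq, hNM z (hEq z hz)]
      exact hz
  have hMc : ContinuousOn M E := by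
    apply continuousOn_const.add
    apply continuousOn_const.mul
    apply ContinuousOn.inv₀ (by fun_prop)
    intro z hz
    exact sub_ne_zero.2 (hEq z hz)
  have hE'c : IsCompact E' := by
    rw [hE'M]
    exact hE.image_of_continuousOn hMc
  have hE'r : CHRemovable E' := CH_mob hE hr hqE hI2 (-I)
  -- norms
  have hnorm : ∀ w, w ≠ -I → ‖N w‖ = ‖w - I‖ / ‖w + I‖ := by
    intro w hw
    have h1 : w + I ≠ 0 := by
      intro h
      exact hw (by linear_combination h)
    have h2 : N w = q * ((w - I) / (w + I)) := by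
      simp only [hN]
      rw [sub_neg_eq_add]
      field_simp
      ring
    rw [h2, norm_mul, hq, one_mul, norm_div]
  have hne : ∀ w ∈ E', w ≠ -I := by
    intro w hw
    rw [hE'M] at hw
    obtain ⟨z, hz, rfl⟩ := hw
    exact hMq z (hEq z hz)
  have hsq : ∀ w : ℂ, ‖w - I‖ ^ 2 - ‖w + I‖ ^ 2 = -4 * w.im := by
    intro w
    rw [Complex.sq_norm, Complex.sq_norm, normSq_apply, normSq_apply]
    simp
    ring
  have hE'im : ∀ w ∈ E', 0 ≤ w.im := by
    intro w hw
    have h1 := mem_closedBall_zero_iff.1 (hEb hw)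
    rw [hnorm w (hne w hw)] at h1
    have h2 : 0 < ‖w + I‖ := by
      rw [norm_pos_iff]
      intro h
      exact hne w hw (by linear_combination h)
    rw [div_le_one h2] at h1
    have h3 := hsq w
    have h4 := norm_nonneg (w - I)
    nlinarith
  have hE'td : IsTotallyDisconnected (E' ∩ {z | z.im = 0}) := by
    intro t ht htc
    have hcN : ContinuousOn N t := by
      apply continuousOn_const.add
      apply continuousOn_const.mul
      apply ContinuousOn.inv₀ (by fun_prop)
      intro w hw
      exact sub_ne_zero.2 (hne w (ht hw).1)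
    have h1 : IsPreconnected (N '' t) := htc.image N hcN
    have h2 : N '' t ⊆ E ∩ sphere 0 1 := by
      rintro _ ⟨w, hw, rfl⟩
      refine ⟨(ht hw).1, ?_⟩
      rw [mem_sphere_zero_iff_norm, hnorm w (hne w (ht hw).1)]
      have h3 := hsq w
      have h4 : w.im = 0 := (ht hw).2
      rw [h4] at h3
      have h5 : ‖w - I‖ = ‖w + I‖ := by
        have h6 := norm_nonneg (w - I)
        have h7 := norm_nonneg (w + I)
        have h8 : (‖w - I‖ - ‖w + I‖) * (‖w - I‖ + ‖w + I‖) = 0 := by nlinarith
        rcases mul_eq_zero.1 h8 with h9 | h9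
        · linarith
        · linarith
      have h2 : 0 < ‖w + I‖ := by
        rw [norm_pos_iff]
        intro h
        exact hne w (ht hw).1 (by linear_combination h)
      rw [h5, div_self h2.ne']
    have h3 := htd (N '' t) h2 h1
    intro x hx y hy
    have h4 := h3 ⟨x, hx, rfl⟩ ⟨y, hy, rfl⟩
    rw [← hMN x (hne x (ht hx).1), h4, hMN y (hne y (ht hy).1)]
  have hfin := h E' hE'c hE'im hE'td hE'r
  set S : Set ℂ := E' ∪ {z | conj z ∈ E'} with hS
  have hSc : IsCompact S := by
    apply hE'c.union
    have e : {z : ℂ | conj z ∈ E'} = conj '' E' := by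
      ext z
      constructor
      · intro hz
        exact ⟨_, hz, Complex.conj_conj z⟩
      · rintro ⟨w, hw, rfl⟩
        rw [mem_ofPred_eq, Complex.conj_conj]
        exact hw
    rw [e]
    exact hE'c.image Complex.continuous_conj
  have hSI : -I ∉ S := by
    rintro (h1 | h1)
    · exact hne _ h1 rfl
    · rw [mem_ofPred_eq, map_neg, Complex.conj_I, neg_neg] at h1
      rw [hE', mem_ofPred_eq] at h1
      have : N I = 0 := by
        simp only [hN]
        rw [sub_neg_eq_add]
        have : I + I ≠ 0 := by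
          rw [← two_mul]
          exact mul_ne_zero two_ne_zero I_ne_zero
        field_simp
        ring
      rw [this] at h1
      exact h0 h1
  have hback := CH_mob hSc hfin hSI hI2 q
  apply CH_mono hback
  rintro z (hz | hz)
  · rw [mem_ofPred_eq]
    left
    rw [hE', mem_ofPred_eq]
    have := hNM z (hEq z hz)
    simp only [hM] at this
    rw [this]
    exact hz
  · rw [mem_ofPred_eq]
    right
    rw [mem_ofPred_eq]
    -- `conj (M z) = M z*`
    set v := (conj z)⁻¹ with hv
    have hvE : v ∈ E := hz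
    have hv0 : v ≠ 0 := by
      intro h1
      rw [h1] at hvE
      exact h0 hvE
    have hz0 : z ≠ 0 := by
      rintro rfl
      apply hv0
      simp [hv]
    have hzc : conj z ≠ 0 := by rwa [ne_eq, map_eq_zero]
    have hvq : v ≠ q := hEq v hvE
    have hvq' : 1 - q * conj z ≠ 0 := by
      intro h1
      apply hvq
      rw [hv]
      field_simp
      linear_combination h1
    have hvq2 : v - q ≠ 0 := sub_ne_zero.2 hvq
    have e1 : conj (-I + (-2 * I * q) * (z - q)⁻¹) = M v := by
      simp only [hM, map_add, map_mul, map_neg, map_inv₀, map_sub, Complex.conj_I, hcq, map_ofNat]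
      have h5 : conj z - q⁻¹ ≠ 0 := by
        intro h6
        apply hvq'
        have h7 : conj z = q⁻¹ := by linear_combination h6
        rw [h7, mul_inv_cancel₀ hq0, sub_self]
      have h8 : (v - q) = (1 - q * conj z) / conj z := by
        rw [hv]
        field_simp
      have h9 : (conj z - q⁻¹) = -(1 - q * conj z) / q := by
        field_simp
        ring
      rw [h8, h9]
      field_simp
      ring
    rw [e1, hE', mem_ofPred_eq, hNM v hvq]
    exact hvE

end Pool.Agent.Loc226
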