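import Mathlib
import Pool.Agent.Work.MP_c9b226_loc.H

set_option autoImplicit false

open Set Metric Complex Filter Topology
open scoped ComplexConjugate NNReal
open Pool.Agent.Work.MP_c9b226_an (CHRemovable exists_portion)

namespace Pool.Agent.Loc226

/-- **Theorem.** The union problem, its case of a totally disconnected intersection, its mirror
case, and the local version for countable covers are equivalent. -/
theorem main_tfae : List.TFAE [
    (∀ K L : Set ℂ, IsCompact K → IsCompact L → CHRemovable K → CHRemovable L →
      CHRemovable (K ∪ L)),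
    (∀ K L : Set ℂ, IsCompact K → IsCompact L → IsTotallyDisconnected (K ∩ L) →
      CHRemovable K → CHRemovable L → CHRemovable (K ∪ L)),
    (∀ K : Set ℂ, IsCompact K → (∀ z ∈ K, 0 ≤ z.im) →
      IsTotallyDisconnected (K ∩ {z | z.im = 0}) → CHRemovable K →
      CHRemovable (K ∪ {z | conj z ∈ K})),
    (∀ K : ℕ → Set ℂ, (∀ n, IsCompact (K n)) → (∀ n, CHRemovable (K n)) →
      ∀ (f : OpenPartialHomeomorph ℂ ℂ) (E : Set ℂ), E ⊆ ⋃ n, K n → IsOpen (f.source \ E) →
      DifferentiableOn ℂ f (f.source \ E) → DifferentiableOn ℂ f f.source)] := by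
  tfae_have 1 → 2 := fun h K L hK hL _ => h K L hK hL
  tfae_have 2 → 3 := by
    intro h K hK him htd hr
    have hcl : IsClosed {z : ℂ | conj z ∈ K} := hK.isClosed.preimage Complex.continuous_conj
    have e : {z : ℂ | conj z ∈ K} = conj '' K := by
      ext z
      constructor
      · intro hz
        exact ⟨_, hz, Complex.conj_conj z⟩
      · rintro ⟨w, hw, rfl⟩
        rw [mem_ofPred_eq, Complex.conj_conj]
        exact hw
    have hcomp : IsCompact {z : ℂ | conj z ∈ K} := by
      rw [e]
      exact hK.image Complex.continuous_conj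
    apply h K _ hK hcomp _ hr (CH_conj hK.isClosed hr)
    have hsub : K ∩ {z | conj z ∈ K} ⊆ K ∩ {z | z.im = 0} := by
      rintro z ⟨hz1, hz2⟩
      refine ⟨hz1, ?_⟩
      have h1 := him z hz1
      have h2 := him _ hz2
      rw [Complex.conj_im] at h2
      rw [mem_ofPred_eq]
      linarith
    exact fun t ht => htd t (ht.trans hsub)
  tfae_have 3 → 4 := by
    intro h K hK hKr e E hEK hopen hd
    have hmir : MirrorUnion := mirrorUnion_of_line h
    by_contra hcon
    have hbad : ∃ z ∈ e.source, ¬ AnalyticAt ℂ e z := by
      by_contra hall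
      push Not at hall
      exact hcon (fun z hz => (hall z hz).differentiableAt.differentiableWithinAt)
    have hgood : ∀ z ∈ e.source, z ∉ E → AnalyticAt ℂ e z := fun z hz hzE =>
      hd.analyticAt (hopen.mem_nhds ⟨hz, hzE⟩)
    obtain ⟨n, B, hB, hBs, ⟨z, hzB, hz⟩, hBK⟩ := exists_portion (fun n => (hK n).isClosed)
      e.open_source (fun z hz hz' => hEK (by
        by_contra hzE
        exact hz' (hgood z hz hzE))) hbad
    have h1 := local_of_mirror hmir (hK n) (hKr n) e hB hBs (fun w hw => by
      have h2 : AnalyticAt ℂ e w := by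
        by_contra h3
        exact hw.2 (hBK w hw.1 h3)
      exact h2.differentiableAt.differentiableWithinAt)
    exact hz (h1.analyticAt (hB.mem_nhds hzB))
  tfae_have 4 → 1 := by
    intro h K L hK hL hKr hLr f hf
    have h1 : ∀ n : ℕ, IsCompact (if n = 0 then K else L) := by
      intro n
      split_ifs
      · exact hK
      · exact hL
    have h2 : ∀ n : ℕ, CHRemovable (if n = 0 then K else L) := by
      intro n
      split_ifs
      · exact hKr
      · exact hLr
    have hU : K ∪ L = ⋃ n : ℕ, (if n = 0 then K else L) := by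
      ext z
      simp only [mem_union, mem_iUnion]
      constructor
      · rintro (h | h)
        · exact ⟨0, by simpa using h⟩
        · exact ⟨1, by simpa using h⟩
      · rintro ⟨n, hn⟩
        split_ifs at hn
        · exact Or.inl hn
        · exact Or.inr hn
    have h3 : f.toOpenPartialHomeomorph.source \ (K ∪ L) = (K ∪ L)ᶜ := by
      ext z
      simp
    have h4 := h _ h1 h2 f.toOpenPartialHomeomorph (K ∪ L) hU.subset
      (by rw [h3]; exact (hK.union hL).isClosed.isOpen_compl) (by rw [h3]; exact hf)
    intro z
    exact h4.differentiableAt (univ_mem : univ ∈ 𝓝 z)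
  tfae_finish

end Pool.Agent.Loc226
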